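import Pool.Agent.V1120.TC.Phase

/-!
The main combinatorial statement: a robust efficient cover of almost all lines.
-/

open Finset

namespace Pool.Agent.V1120.TC

section Density

variable {F : Type*} [Field F] [Fintype F] [DecidableEq F]
variable {T : Type*} [Fintype T] [DecidableEq T]

lemma lines_inter (τ : T → F) (K : ℕ) (hτ : ∀ a, (Finset.univ.filter fun t => τ t = a).card = K)
    (ℓ ℓ' : F × F) (h : ℓ ≠ ℓ') :
    (Finset.univ.filter fun t => lv ℓ (τ t) = lv ℓ' (τ t)).card ≤ K := by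
  by_cases h1 : ℓ.1 = ℓ'.1
  · have h2 : ℓ.2 ≠ ℓ'.2 := fun h2 => h (Prod.ext h1 h2)
    rw [Finset.filter_eq_empty_iff.mpr]
    · simp
    · intro t _ ht
      unfold lv at ht
      rw [h1] at ht
      exact h2 (add_left_cancel ht)
  · rw [← hτ ((ℓ'.2 - ℓ.2) / (ℓ.1 - ℓ'.1))]
    apply Finset.card_le_card
    intro t ht
    rw [Finset.mem_filter] at ht ⊢
    refine ⟨Finset.mem_univ _, ?_⟩
    have h3 := ht.2
    unfold lv at h3
    rw [eq_div_iff (sub_ne_zero.mpr h1)]
    linear_combination h3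

lemma cnt_eq (τ : T → F) (D : Finset (T × F)) (ℓ : F × F) :
    (Finset.univ.filter fun t => (t, lv ℓ (τ t)) ∈ D).card
      = (D.filter fun p => lv ℓ (τ p.1) = p.2).card := by
  apply Finset.card_bij (fun t _ => (t, lv ℓ (τ t)))
  · intro t ht
    rw [Finset.mem_filter] at ht ⊢
    exact ⟨ht.2, rfl⟩
  · intro t _ t' _ h
    exact (Prod.ext_iff.mp h).1
  · intro p hp
    rw [Finset.mem_filter] at hp
    refine ⟨p.1, ?_, ?_⟩
    · rw [Finset.mem_filter]
      refine ⟨Finset.mem_univ _, ?_⟩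
      rw [hp.2]; exact hp.1
    · exact Prod.ext rfl hp.2

/-- few lines have more than half of their points deleted -/
lemma density (τ : T → F) (K : ℕ) (hK : 1 ≤ K)
    (hτ : ∀ a, (Finset.univ.filter fun t => τ t = a).card = K)
    (hT : Fintype.card T = K * Fintype.card F)
    (D : Finset (T × F)) (hD : 8 * D.card ≤ (Fintype.card F) ^ 2)
    (𝓑 : Finset (F × F))
    (h𝓑 : ∀ ℓ ∈ 𝓑, (K : ℝ) * Fintype.card F / 2
      ≤ ((Finset.univ.filter fun t => (t, lv ℓ (τ t)) ∈ D).card : ℝ)) :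
    (𝓑.card : ℝ) ≤ Fintype.card F := by
  have hn : (0 : ℝ) < Fintype.card F := by exact_mod_cast Fintype.card_pos
  set g : ℝ := (Fintype.card F : ℝ) with hg
  set B : ℝ := (𝓑.card : ℝ) with hB
  have hKr : (1 : ℝ) ≤ K := by exact_mod_cast hK
  have hDr : (D.card : ℝ) ≤ g ^ 2 / 8 := by
    have : ((8 * D.card : ℕ) : ℝ) ≤ (((Fintype.card F) ^ 2 : ℕ) : ℝ) := by exact_mod_cast hD
    push_cast at this
    rw [← hg] at this
    linarith
  let deg : T × F → ℝ := fun p => ((𝓑.filter fun ℓ => lv ℓ (τ p.1) = p.2).card : ℝ)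
  have h1 : B * (K * g / 2) ≤ ∑ p ∈ D, deg p := by
    calc B * (K * g / 2) = ∑ ℓ ∈ 𝓑, (K * g / 2) := by
          rw [Finset.sum_const, nsmul_eq_mul]
      _ ≤ ∑ ℓ ∈ 𝓑, ((Finset.univ.filter fun t => (t, lv ℓ (τ t)) ∈ D).card : ℝ) :=
          Finset.sum_le_sum h𝓑
      _ = ∑ ℓ ∈ 𝓑, ∑ p ∈ D, (if lv ℓ (τ p.1) = p.2 then (1 : ℝ) else 0) := by
          apply Finset.sum_congr rfl
          intro ℓ _
          rw [cnt_eq, Finset.card_filter]
          push_cast
          rfl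
      _ = ∑ p ∈ D, ∑ ℓ ∈ 𝓑, (if lv ℓ (τ p.1) = p.2 then (1 : ℝ) else 0) := Finset.sum_comm
      _ = ∑ p ∈ D, deg p := by
          apply Finset.sum_congr rfl
          intro p _
          simp only [deg]
          rw [Finset.card_filter]
          push_cast
          rfl
  have h2 : ∑ p : T × F, deg p ^ 2 ≤ K * (B * g + B ^ 2) := by
    have e1 : ∀ p : T × F, deg p ^ 2 = ∑ ℓ ∈ 𝓑, ∑ ℓ' ∈ 𝓑,
        (if lv ℓ (τ p.1) = p.2 ∧ lv ℓ' (τ p.1) = p.2 then (1 : ℝ) else 0) := by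
      intro p
      simp only [deg]
      rw [Finset.card_filter]
      push_cast
      rw [sq, Finset.sum_mul_sum]
      apply Finset.sum_congr rfl
      intro ℓ _
      apply Finset.sum_congr rfl
      intro ℓ' _
      by_cases ha : lv ℓ (τ p.1) = p.2 <;> by_cases hb : lv ℓ' (τ p.1) = p.2 <;> simp [ha, hb]
    rw [Finset.sum_congr rfl fun p _ => e1 p]
    rw [Finset.sum_comm]
    have e2 : ∀ ℓ ∈ 𝓑, ∑ p : T × F, ∑ ℓ' ∈ 𝓑,
        (if lv ℓ (τ p.1) = p.2 ∧ lv ℓ' (τ p.1) = p.2 then (1 : ℝ) else 0)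
        ≤ K * g + K * B := by
      intro ℓ hℓ
      rw [Finset.sum_comm]
      have e3 : ∀ ℓ' ∈ 𝓑, ∑ p : T × F,
          (if lv ℓ (τ p.1) = p.2 ∧ lv ℓ' (τ p.1) = p.2 then (1 : ℝ) else 0)
          ≤ (if ℓ' = ℓ then K * g else 0) + K := by
        intro ℓ' _
        have e4 : ∑ p : T × F,
          (if lv ℓ (τ p.1) = p.2 ∧ lv ℓ' (τ p.1) = p.2 then (1 : ℝ) else 0)
            = ((Finset.univ.filter fun t => lv ℓ (τ t) = lv ℓ' (τ t)).card : ℝ) := by
          rw [Fintype.sum_prod_type, Finset.card_filter]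
          push_cast
          apply Finset.sum_congr rfl
          intro t _
          have : ∀ y : F, (if lv ℓ (τ t) = y ∧ lv ℓ' (τ t) = y then (1 : ℝ) else 0)
              = if lv ℓ (τ t) = y then (if lv ℓ (τ t) = lv ℓ' (τ t) then (1 : ℝ) else 0)
                else 0 := by
            intro y
            by_cases ha : lv ℓ (τ t) = y
            · subst ha
              by_cases hb : lv ℓ (τ t) = lv ℓ' (τ t)
              · simp [hb]
              · have hb' : ¬ lv ℓ' (τ t) = lv ℓ (τ t) := fun h => hb h.symm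
                simp [hb, hb']
            · simp [ha]
          rw [Finset.sum_congr rfl fun y _ => this y]
          rw [Finset.sum_ite_eq Finset.univ (lv ℓ (τ t))]
          simp
        rw [e4]
        by_cases hl : ℓ' = ℓ
        · rw [if_pos hl]
          have : ((Finset.univ.filter fun t => lv ℓ (τ t) = lv ℓ' (τ t)).card : ℝ)
              ≤ (Fintype.card T : ℝ) := by exact_mod_cast Finset.card_le_univ _
          rw [hT] at this
          push_cast at this
          rw [← hg] at this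
          linarith
        · rw [if_neg hl, zero_add]
          exact_mod_cast lines_inter τ K hτ ℓ ℓ' (fun h => hl h.symm)
      calc _ ≤ ∑ ℓ' ∈ 𝓑, ((if ℓ' = ℓ then K * g else 0) + (K : ℝ)) := Finset.sum_le_sum e3
        _ = K * g + K * B := by
          rw [Finset.sum_add_distrib, Finset.sum_ite_eq' 𝓑 ℓ, if_pos hℓ, Finset.sum_const,
            nsmul_eq_mul]
          ring
    calc _ ≤ ∑ ℓ ∈ 𝓑, (K * g + K * B) := Finset.sum_le_sum e2
      _ = K * (B * g + B ^ 2) := by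
        rw [Finset.sum_const, nsmul_eq_mul]; ring
  have h3 : (∑ p ∈ D, deg p) ^ 2 ≤ (D.card : ℝ) * ∑ p ∈ D, deg p ^ 2 := sq_sum_le_card_mul_sum_sq
  have h4 : ∑ p ∈ D, deg p ^ 2 ≤ ∑ p : T × F, deg p ^ 2 :=
    Finset.sum_le_sum_of_subset_of_nonneg (Finset.subset_univ _) fun p _ _ => sq_nonneg _
  have hB0 : 0 ≤ B := by rw [hB]; positivity
  have h5 : (B * (K * g / 2)) ^ 2 ≤ g ^ 2 / 8 * (K * (B * g + B ^ 2)) := by
    have h6 : 0 ≤ B * (K * g / 2) := by positivity
    calc (B * (K * g / 2)) ^ 2 ≤ (∑ p ∈ D, deg p) ^ 2 := pow_le_pow_left₀ h6 h1 2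
      _ ≤ (D.card : ℝ) * ∑ p ∈ D, deg p ^ 2 := h3
      _ ≤ g ^ 2 / 8 * (K * (B * g + B ^ 2)) := by
          apply mul_le_mul hDr (h4.trans h2) _ (by positivity)
          exact Finset.sum_nonneg fun p _ => sq_nonneg _
  by_contra hcon
  push Not at hcon
  have hBpos : 0 < B := lt_trans hn hcon
  have h7 : 2 * K * B ≤ g + B := by
    have h8 : (g ^ 2 * K * B / 8) * (2 * K * B) ≤ (g ^ 2 * K * B / 8) * (g + B) := by
      nlinarith
    exact le_of_mul_le_mul_left h8 (by positivity)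
  nlinarith

end Density

section Core

variable {F : Type*} [Field F] [Fintype F] [DecidableEq F] {K : ℕ}

/-- The total error of the two second moment estimates. -/
noncomputable def rho (K d g : ℕ) : ℝ :=
  ((Rr K d g - 1) + Real.exp (2 * (K * d : ℝ)) / (g : ℝ))
    + 16 * ((Rr K d g - 1) * Real.exp (2 * (K : ℝ)) + Real.exp (2 * (K * d : ℝ)) / (g : ℝ))

/-- Main combinatorial lemma. -/
theorem core (hK : 1 ≤ K) (I : Finset F) (hI1 : 1 ≤ I.card) (hI : 2 * I.card ≤ Fintype.card F)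
    (D₁ : Finset ((Fin K × F) × F)) (D₂ : Finset (F × F))
    (h1 : 8 * D₁.card ≤ (Fintype.card F) ^ 2) (h2 : 8 * D₂.card ≤ (Fintype.card F) ^ 2)
    (hρ : rho K I.card (Fintype.card F) * Real.exp (2 * (K * I.card : ℝ)) ≤ 1 / 8) :
    ∃ (e₁ : Fin K × F → Option F) (e₂ : F → Option F),
      (∀ t b, e₁ t = some b → (t, b) ∉ D₁) ∧ (∀ a b, e₂ a = some b → (a, b) ∉ D₂) ∧
      (((I ×ˢ (Finset.univ : Finset F)).filter fun ℓ =>
        (∀ t : Fin K × F, e₁ t ≠ some (lv ℓ t.2)) ∧ ∀ a, e₂ a ≠ some (lv ℓ a)).card : ℝ)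
        ≤ 2 * Fintype.card F + rho K I.card (Fintype.card F) * (I.card * Fintype.card F)
          + (I.card * Fintype.card F) * Real.exp (-(Real.exp (K / 2 : ℝ) / 16)) := by
  classical
  set g : ℝ := (Fintype.card F : ℝ) with hg
  have hn : (0 : ℝ) < g := by rw [hg]; exact_mod_cast Fintype.card_pos
  set d : ℝ := (I.card : ℝ) with hd
  have hd0 : (0 : ℝ) < d := by rw [hd]; exact_mod_cast hI1
  have hF2 : 2 ≤ Fintype.card F := by omega
  set ρ := rho K I.card (Fintype.card F) with hρdef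
  let 𝓘 : Finset (F × F) := I ×ˢ (Finset.univ : Finset F)
  have h𝓘 : (𝓘.card : ℝ) = d * g := by
    simp only [𝓘]
    rw [Finset.card_product, Finset.card_univ]
    push_cast
    rfl
  let 𝓑₁ : Finset (F × F) := 𝓘.filter fun ℓ => (K : ℝ) * Fintype.card F / 2
      ≤ ((Finset.univ.filter fun t : Fin K × F => (t, lv ℓ t.2) ∈ D₁).card : ℝ)
  let 𝓑₂ : Finset (F × F) := 𝓘.filter fun ℓ => ((1 : ℕ) : ℝ) * Fintype.card F / 2
      ≤ ((Finset.univ.filter fun a : F => (a, lv ℓ a) ∈ D₂).card : ℝ)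
  have hB1 : (𝓑₁.card : ℝ) ≤ g := by
    apply density (fun t : Fin K × F => t.2) K hK _ _ D₁ h1 𝓑₁
    · intro ℓ hℓ
      exact (Finset.mem_filter.mp hℓ).2
    · intro a
      have : (Finset.univ.filter fun t : Fin K × F => t.2 = a)
          = (Finset.univ : Finset (Fin K)) ×ˢ {a} := by
        ext ⟨k, a'⟩
        simp only [Finset.mem_filter, Finset.mem_univ, true_and, Finset.mem_product,
          Finset.mem_singleton]
      rw [this, Finset.card_product]
      simp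
    · rw [Fintype.card_prod, Fintype.card_fin]
  have hB2 : (𝓑₂.card : ℝ) ≤ g := by
    apply density (fun a : F => a) 1 le_rfl _ _ D₂ h2 𝓑₂
    · intro ℓ hℓ
      exact (Finset.mem_filter.mp hℓ).2
    · intro a
      rw [Finset.filter_eq' Finset.univ a]
      simp
    · rw [one_mul]
  let 𝓖 : Finset (F × F) := 𝓘.filter fun ℓ => ℓ ∉ 𝓑₁ ∧ ℓ ∉ 𝓑₂
  have hG1 : ∀ ℓ ∈ 𝓖, (K : ℝ) * Fintype.card F / 2
      ≤ ((Finset.univ.filter fun t : Fin K × F => (t, lv ℓ t.2) ∉ D₁).card : ℝ) := by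
    intro ℓ hℓ
    have h3 := Finset.mem_filter.mp hℓ
    have h4 : ¬ ((K : ℝ) * Fintype.card F / 2
      ≤ ((Finset.univ.filter fun t : Fin K × F => (t, lv ℓ t.2) ∈ D₁).card : ℝ)) := by
      intro h5
      exact h3.2.1 (Finset.mem_filter.mpr ⟨h3.1, h5⟩)
    have h5 := Finset.card_filter_add_card_filter_not
      (s := (Finset.univ : Finset (Fin K × F))) (fun t => (t, lv ℓ t.2) ∈ D₁)
    have h6 : ((Finset.univ.filter fun t : Fin K × F => (t, lv ℓ t.2) ∈ D₁).card : ℝ)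
        + ((Finset.univ.filter fun t : Fin K × F => (t, lv ℓ t.2) ∉ D₁).card : ℝ)
        = K * Fintype.card F := by
      have : (((Finset.univ.filter fun t : Fin K × F => (t, lv ℓ t.2) ∈ D₁).card
        + (Finset.univ.filter fun t : Fin K × F => (t, lv ℓ t.2) ∉ D₁).card : ℕ) : ℝ)
        = ((Finset.univ : Finset (Fin K × F)).card : ℝ) := by exact_mod_cast h5
      rw [Finset.card_univ, Fintype.card_prod, Fintype.card_fin] at this
      push_cast at this
      exact this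
    push Not at h4
    linarith
  have hG2 : ∀ ℓ ∈ 𝓖, (Fintype.card F : ℝ) / 2
      ≤ ((Finset.univ.filter fun a : F => (a, lv ℓ a) ∉ D₂).card : ℝ) := by
    intro ℓ hℓ
    have h3 := Finset.mem_filter.mp hℓ
    have h4 : ¬ (((1 : ℕ) : ℝ) * Fintype.card F / 2
      ≤ ((Finset.univ.filter fun a : F => (a, lv ℓ a) ∈ D₂).card : ℝ)) := by
      intro h5
      exact h3.2.2 (Finset.mem_filter.mpr ⟨h3.1, h5⟩)
    have h5 := Finset.card_filter_add_card_filter_not
      (s := (Finset.univ : Finset F)) (fun a => (a, lv ℓ a) ∈ D₂)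
    have h6 : ((Finset.univ.filter fun a : F => (a, lv ℓ a) ∈ D₂).card : ℝ)
        + ((Finset.univ.filter fun a : F => (a, lv ℓ a) ∉ D₂).card : ℝ)
        = Fintype.card F := by
      have : (((Finset.univ.filter fun a : F => (a, lv ℓ a) ∈ D₂).card
        + (Finset.univ.filter fun a : F => (a, lv ℓ a) ∉ D₂).card : ℕ) : ℝ)
        = ((Finset.univ : Finset F).card : ℝ) := by exact_mod_cast h5
      rw [Finset.card_univ] at this
      push_cast at this
      exact this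
    push Not at h4
    push_cast at h4
    linarith
  have hGc : (𝓖.card : ℝ) ≤ d * g := by
    rw [← h𝓘]; exact_mod_cast Finset.card_filter_le _ _
  -- the objective
  let ovr : (Fin K × F → F) → F → Prop := fun β a => 1 < ∑ b, Wt D₁ D₂ I β a b
  let bad : (Fin K × F → F) → F × F → Prop := fun β ℓ =>
    qL D₁ ℓ β = 1 ∧ ∑ a, Wt D₁ D₂ I β a (lv ℓ a) < Real.exp (K / 2 : ℝ) / 8
  set v1 : ℝ := (Rr K I.card (Fintype.card F) - 1)
        + Real.exp (2 * (K * I.card : ℝ)) / (Fintype.card F : ℝ) with hv1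
  set v2 : ℝ := 16 * ((Rr K I.card (Fintype.card F) - 1) * Real.exp (2 * (K : ℝ))
        + Real.exp (2 * (K * I.card : ℝ)) / (Fintype.card F : ℝ)) with hv2
  have hR1 : 0 ≤ Rr K I.card (Fintype.card F) - 1 := by
    have := one_le_Rr K I.card (Fintype.card F); linarith
  have hv10 : 0 ≤ v1 := by rw [hv1]; positivity
  have hv20 : 0 ≤ v2 := by rw [hv2]; positivity
  have hρv : ρ = v1 + v2 := by rw [hρdef, hv1, hv2]; rfl
  obtain ⟨β, -, hβ⟩ := exists_le_of_ex_le (pu K F) pu_nonneg pu_sum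
    (fun β => (1 / g) * (∑ a : F, if ovr β a then (1 : ℝ) else 0)
      + (1 / (d * g)) * (∑ ℓ ∈ 𝓖, if bad β ℓ then (1 : ℝ) else 0)) ρ (by
      rw [ex_add, ex_smul, ex_smul, ex_sum, ex_sum]
      have a1 : ∑ a : F, Ex (pu K F) (fun β => if ovr β a then (1 : ℝ) else 0) ≤ g * v1 := by
        calc _ ≤ ∑ a : F, v1 := Finset.sum_le_sum fun a _ => var_vertical D₁ D₂ I hI a
          _ = g * v1 := by rw [Finset.sum_const, nsmul_eq_mul, Finset.card_univ]
      have a2 : ∑ ℓ ∈ 𝓖, Ex (pu K F) (fun β => if bad β ℓ then (1 : ℝ) else 0)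
          ≤ (d * g) * v2 := by
        calc _ ≤ ∑ ℓ ∈ 𝓖, v2 := Finset.sum_le_sum fun ℓ hℓ => by
                have hmem : ℓ.1 ∈ I := by
                  have := (Finset.mem_filter.mp hℓ).1
                  exact (Finset.mem_product.mp this).1
                exact var_line D₁ D₂ I hI hF2 ℓ hmem (hG1 ℓ hℓ) (hG2 ℓ hℓ)
          _ = 𝓖.card * v2 := by rw [Finset.sum_const, nsmul_eq_mul]
          _ ≤ (d * g) * v2 := mul_le_mul_of_nonneg_right hGc hv20
      rw [hρv]
      have a3 : 1 / g * ∑ a : F, Ex (pu K F) (fun β => if ovr β a then (1 : ℝ) else 0)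
          ≤ v1 := by
        calc _ ≤ 1 / g * (g * v1) := mul_le_mul_of_nonneg_left a1 (by positivity)
          _ = v1 := by field_simp
      have a4 : 1 / (d * g) * ∑ ℓ ∈ 𝓖, Ex (pu K F) (fun β => if bad β ℓ then (1 : ℝ) else 0)
          ≤ v2 := by
        calc _ ≤ 1 / (d * g) * ((d * g) * v2) := mul_le_mul_of_nonneg_left a2 (by positivity)
          _ = v2 := by field_simp
      linarith)
  have hovr : ((Finset.univ.filter fun a : F => 1 < ∑ b, Wt D₁ D₂ I β a b).card : ℝ)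
      ≤ ρ * g := by
    have e1 : ((Finset.univ.filter fun a : F => 1 < ∑ b, Wt D₁ D₂ I β a b).card : ℝ)
        = ∑ a : F, if ovr β a then (1 : ℝ) else 0 := by
      rw [Finset.card_filter]; push_cast; rfl
    rw [e1]
    have e2 : 0 ≤ (1 / (d * g)) * (∑ ℓ ∈ 𝓖, if bad β ℓ then (1 : ℝ) else 0) := by
      apply mul_nonneg (by positivity)
      exact Finset.sum_nonneg fun ℓ _ => by split_ifs <;> norm_num
    have e3 : (1 / g) * (∑ a : F, if ovr β a then (1 : ℝ) else 0) ≤ ρ := by linarith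
    rw [one_div, inv_mul_le_iff₀ hn] at e3
    linarith
  have hbadc : ((𝓖.filter fun ℓ => bad β ℓ).card : ℝ) ≤ ρ * (d * g) := by
    have e1 : ((𝓖.filter fun ℓ => bad β ℓ).card : ℝ)
        = ∑ ℓ ∈ 𝓖, if bad β ℓ then (1 : ℝ) else 0 := by
      rw [Finset.card_filter]; push_cast; rfl
    rw [e1]
    have e2 : 0 ≤ (1 / g) * (∑ a : F, if ovr β a then (1 : ℝ) else 0) := by
      apply mul_nonneg (by positivity)
      exact Finset.sum_nonneg fun ℓ _ => by split_ifs <;> norm_num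
    have e3 : (1 / (d * g)) * (∑ ℓ ∈ 𝓖, if bad β ℓ then (1 : ℝ) else 0) ≤ ρ := by linarith
    rw [one_div, inv_mul_le_iff₀ (by positivity)] at e3
    linarith
  let 𝓛 : Finset (F × F) := 𝓖.filter fun ℓ =>
    Real.exp (K / 2 : ℝ) / 8 ≤ ∑ a, Wt D₁ D₂ I β a (lv ℓ a)
  obtain ⟨e₂, he₂, he₂m⟩ := phase_two (Wt D₁ D₂ I β) (Wt_nonneg D₁ D₂ I hI β)
    (Real.exp (2 * (K * I.card : ℝ)) / (2 * (Fintype.card F : ℝ))) (Wt_le D₁ D₂ I hI β)
    (ρ * g) hovr 𝓛 (Real.exp (K / 2 : ℝ) / 8)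
    (fun ℓ hℓ => (Finset.mem_filter.mp hℓ).2)
  let e₁ : Fin K × F → Option F := fun t => if (t, β t) ∈ D₁ then none else some (β t)
  refine ⟨e₁, e₂, ?_, ?_, ?_⟩
  · intro t b htb
    simp only [e₁] at htb
    split_ifs at htb with h
    have : β t = b := by simpa using htb
    rw [← this]; exact h
  · intro a b hab
    have := he₂ a b hab
    unfold Wt at this
    by_contra hmem
    rw [if_neg (not_not.mpr hmem)] at this
    exact lt_irrefl _ this
  · have hcover : ((I ×ˢ (Finset.univ : Finset F)).filter fun ℓ =>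
        (∀ t : Fin K × F, e₁ t ≠ some (lv ℓ t.2)) ∧ ∀ a, e₂ a ≠ some (lv ℓ a))
        ⊆ ((𝓑₁ ∪ 𝓑₂) ∪ (𝓖.filter fun ℓ => bad β ℓ))
          ∪ (𝓛.filter fun ℓ => ∀ a, e₂ a ≠ some (lv ℓ a)) := by
      intro ℓ hℓ
      rw [Finset.mem_filter] at hℓ
      obtain ⟨hℓI, hm1, hm2⟩ := hℓ
      by_cases hb1 : ℓ ∈ 𝓑₁
      · exact Finset.mem_union_left _ (Finset.mem_union_left _ (Finset.mem_union_left _ hb1))
      by_cases hb2 : ℓ ∈ 𝓑₂
      · exact Finset.mem_union_left _ (Finset.mem_union_left _ (Finset.mem_union_right _ hb2))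
      have hGm : ℓ ∈ 𝓖 := Finset.mem_filter.mpr ⟨hℓI, hb1, hb2⟩
      have hq : qL D₁ ℓ β = 1 := by
        unfold qL
        rw [if_pos]
        intro t ht
        have h3 := mem_AL.mp ht
        apply hm1 t
        simp only [e₁]
        rw [h3.2, if_neg h3.1]
      by_cases hs : ∑ a, Wt D₁ D₂ I β a (lv ℓ a) < Real.exp (K / 2 : ℝ) / 8
      · exact Finset.mem_union_left _ (Finset.mem_union_right _
          (Finset.mem_filter.mpr ⟨hGm, hq, hs⟩))
      · exact Finset.mem_union_right _ (Finset.mem_filter.mpr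
          ⟨Finset.mem_filter.mpr ⟨hGm, not_lt.mp hs⟩, hm2⟩)
    have hc1 := Finset.card_le_card hcover
    have hc2 : ((I ×ˢ (Finset.univ : Finset F)).filter fun ℓ =>
        (∀ t : Fin K × F, e₁ t ≠ some (lv ℓ t.2)) ∧ ∀ a, e₂ a ≠ some (lv ℓ a)).card
        ≤ 𝓑₁.card + 𝓑₂.card + (𝓖.filter fun ℓ => bad β ℓ).card
          + (𝓛.filter fun ℓ => ∀ a, e₂ a ≠ some (lv ℓ a)).card := by
      refine hc1.trans ((Finset.card_union_le _ _).trans ?_)
      refine Nat.add_le_add_right ?_ _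
      refine (Finset.card_union_le _ _).trans ?_
      refine Nat.add_le_add_right ?_ _
      exact Finset.card_union_le _ _
    have hc3 : (((I ×ˢ (Finset.univ : Finset F)).filter fun ℓ =>
        (∀ t : Fin K × F, e₁ t ≠ some (lv ℓ t.2)) ∧ ∀ a, e₂ a ≠ some (lv ℓ a)).card : ℝ)
        ≤ (𝓑₁.card : ℝ) + 𝓑₂.card + (𝓖.filter fun ℓ => bad β ℓ).card
          + (𝓛.filter fun ℓ => ∀ a, e₂ a ≠ some (lv ℓ a)).card := by exact_mod_cast hc2
    have hLc : (𝓛.card : ℝ) ≤ d * g := by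
      refine le_trans ?_ hGc
      exact_mod_cast Finset.card_filter_le _ _
    have hexp1 : 1 ≤ Real.exp (K / 2 : ℝ) := Real.one_le_exp (by positivity)
    have hfin : (𝓛.card : ℝ) * Real.exp (-(Real.exp (K / 2 : ℝ) / 8
        - ρ * g * (Real.exp (2 * (K * I.card : ℝ)) / (2 * (Fintype.card F : ℝ)))))
        ≤ (d * g) * Real.exp (-(Real.exp (K / 2 : ℝ) / 16)) := by
      apply mul_le_mul hLc _ (Real.exp_pos _).le (by positivity)
      apply Real.exp_le_exp.mpr
      have h9 : ρ * g * (Real.exp (2 * (K * I.card : ℝ)) / (2 * (Fintype.card F : ℝ)))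
          = ρ * Real.exp (2 * (K * I.card : ℝ)) / 2 := by
        rw [← hg]; field_simp
      rw [h9]
      linarith
    have := he₂m.trans hfin
    calc _ ≤ (𝓑₁.card : ℝ) + 𝓑₂.card + (𝓖.filter fun ℓ => bad β ℓ).card
          + (𝓛.filter fun ℓ => ∀ a, e₂ a ≠ some (lv ℓ a)).card := hc3
      _ ≤ g + g + ρ * (d * g) + (d * g) * Real.exp (-(Real.exp (K / 2 : ℝ) / 16)) := by
          linarith
      _ = _ := by ring

end Core

end Pool.Agent.V1120.TC
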