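import Pool.Agent.V1120.TC.Prod

/-!
Lines in the affine plane over a finite field and correlation of the events that all lines
(with slope in a given set) through a point are missed by a random function.
-/

open Finset

namespace Pool.Agent.V1120.TC

section Corr

lemma exp_neg_two_le {y : ℝ} (h0 : 0 ≤ y) (h1 : y ≤ 1 / 2) : Real.exp (-(2 * y)) ≤ 1 - y := by
  rw [Real.exp_neg]
  have h2 : 1 + 2 * y ≤ Real.exp (2 * y) := by
    have := Real.add_one_le_exp (2 * y); linarith
  have h3 : 0 < 1 + 2 * y := by linarith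
  calc (Real.exp (2 * y))⁻¹ ≤ (1 + 2 * y)⁻¹ := inv_anti₀ h3 h2
    _ ≤ 1 - y := by
      rw [inv_eq_one_div, div_le_iff₀ h3]
      nlinarith

lemma prod_add_le {X : Type*} [Fintype X] (α η : X → ℝ) (c : ℝ) (hc : 0 < c)
    (hα : ∀ t, c ≤ α t) (hη : ∀ t, 0 ≤ η t) :
    ∏ t, (α t + η t) ≤ (∏ t, α t) * Real.exp ((∑ t, η t) / c) := by
  rw [Finset.sum_div, Real.exp_sum, ← Finset.prod_mul_distrib]
  apply Finset.prod_le_prod
  · intro t _
    have := hα t
    have := hη t
    linarith
  · intro t _
    have h1 := hα t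
    have h2 := hη t
    have h3 : 0 < α t := lt_of_lt_of_le hc h1
    calc α t + η t ≤ α t + α t * (η t / c) := by
          have : η t ≤ α t * (η t / c) := by
            rw [mul_div_assoc', le_div_iff₀ hc]
            nlinarith
          linarith
      _ = α t * (η t / c + 1) := by ring
      _ ≤ α t * Real.exp (η t / c) :=
          mul_le_mul_of_nonneg_left (Real.add_one_le_exp _) h3.le

variable {F : Type*} [DecidableEq F]

lemma per_index (A B L : Finset F) (n : ℝ) (hn : 0 < n)
    (hL : L ⊆ A ∩ B) (hL1 : L.card ≤ 1) :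
    (1 - ((A ∪ B).card : ℝ) / n) * (1 - (L.card : ℝ) / n)
      ≤ (1 - (A.card : ℝ) / n) * (1 - (B.card : ℝ) / n)
        + (((A ∩ B).card : ℝ) - L.card) / n := by
  have hU : ((A ∪ B).card : ℝ) = A.card + B.card - (A ∩ B).card := by
    have := Finset.card_union_add_card_inter A B
    have h2 : ((A ∪ B).card : ℝ) + (A ∩ B).card = A.card + B.card := by exact_mod_cast this
    linarith
  rcases Nat.le_one_iff_eq_zero_or_eq_one.mp hL1 with h | h
  · rw [h, hU]
    have hdiff : (1 - (A.card : ℝ) / n) * (1 - (B.card : ℝ) / n)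
        + (((A ∩ B).card : ℝ) - ((0 : ℕ) : ℝ)) / n
        - (1 - ((A.card : ℝ) + B.card - (A ∩ B).card) / n) * (1 - ((0 : ℕ) : ℝ) / n)
        = ((A.card : ℝ) * B.card) / n ^ 2 := by
      push_cast
      field_simp
      ring
    have hnn : 0 ≤ ((A.card : ℝ) * B.card) / n ^ 2 := by positivity
    linarith
  · rw [h, hU]
    have hI : 1 ≤ (A ∩ B).card := by
      rw [← h]; exact Finset.card_le_card hL
    have hA : (A ∩ B).card ≤ A.card := Finset.card_le_card Finset.inter_subset_left
    have hB : (A ∩ B).card ≤ B.card := Finset.card_le_card Finset.inter_subset_right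
    have hIr : (1 : ℝ) ≤ (A ∩ B).card := by exact_mod_cast hI
    have hAr : ((A ∩ B).card : ℝ) ≤ A.card := by exact_mod_cast hA
    have hBr : ((A ∩ B).card : ℝ) ≤ B.card := by exact_mod_cast hB
    have hdiff : (1 - (A.card : ℝ) / n) * (1 - (B.card : ℝ) / n)
        + (((A ∩ B).card : ℝ) - ((1 : ℕ) : ℝ)) / n
        - (1 - ((A.card : ℝ) + B.card - (A ∩ B).card) / n) * (1 - ((1 : ℕ) : ℝ) / n)
        = ((A.card : ℝ) * B.card - (A.card + B.card - (A ∩ B).card)) / n ^ 2 := by
      push_cast
      field_simp
      ring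
    have hnn : 0 ≤ ((A.card : ℝ) * B.card - (A.card + B.card - (A ∩ B).card)) / n ^ 2 := by
      apply div_nonneg _ (by positivity)
      nlinarith [mul_nonneg (by linarith : (0 : ℝ) ≤ (A.card : ℝ) - 1)
        (by linarith : (0 : ℝ) ≤ (B.card : ℝ) - 1)]
    linarith

lemma corr_prod {X : Type*} [Fintype X] (A B L : X → Finset F) (n N : ℝ) (hn : 0 < n)
    (hL : ∀ t, L t ⊆ A t ∩ B t) (hL1 : ∀ t, (L t).card ≤ 1)
    (hA : ∀ t, ((A t).card : ℝ) ≤ n / 2) (hB : ∀ t, ((B t).card : ℝ) ≤ n / 2)
    (hLn : ∀ t, ((L t).card : ℝ) ≤ n)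
    (hAB : ∀ t, ((A t ∪ B t).card : ℝ) ≤ n)
    (hN : ∑ t, (((A t ∩ B t).card : ℝ) - (L t).card) ≤ N) :
    (∏ t, (1 - ((A t ∪ B t).card : ℝ) / n)) * (∏ t, (1 - ((L t).card : ℝ) / n))
      ≤ (∏ t, (1 - ((A t).card : ℝ) / n)) * (∏ t, (1 - ((B t).card : ℝ) / n))
        * Real.exp (4 * N / n) := by
  rw [← Finset.prod_mul_distrib, ← Finset.prod_mul_distrib]
  have hdl : ∀ (c : ℝ), c ≤ n / 2 → 1 / 2 ≤ 1 - c / n := by
    intro c hc
    have : c / n ≤ 1 / 2 := by
      rw [div_le_iff₀ hn]; linarith
    linarith
  calc ∏ t, ((1 - ((A t ∪ B t).card : ℝ) / n) * (1 - ((L t).card : ℝ) / n))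
      ≤ ∏ t, ((1 - ((A t).card : ℝ) / n) * (1 - ((B t).card : ℝ) / n)
          + (((A t ∩ B t).card : ℝ) - (L t).card) / n) := by
        apply Finset.prod_le_prod
        · intro t _
          apply mul_nonneg
          · have : ((A t ∪ B t).card : ℝ) / n ≤ 1 := by
              rw [div_le_one hn]; exact hAB t
            linarith
          · have : ((L t).card : ℝ) / n ≤ 1 := by
              rw [div_le_one hn]; exact hLn t
            linarith
        · intro t _
          exact per_index (A t) (B t) (L t) n hn (hL t) (hL1 t)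
    _ ≤ (∏ t, ((1 - ((A t).card : ℝ) / n) * (1 - ((B t).card : ℝ) / n)))
          * Real.exp ((∑ t, (((A t ∩ B t).card : ℝ) - (L t).card) / n) / (1 / 4)) := by
        apply prod_add_le _ _ (1 / 4) (by norm_num)
        · intro t
          have h1 := hdl _ (hA t)
          have h2 := hdl _ (hB t)
          nlinarith
        · intro t
          apply div_nonneg _ hn.le
          have : (L t).card ≤ (A t ∩ B t).card := Finset.card_le_card (hL t)
          have : ((L t).card : ℝ) ≤ (A t ∩ B t).card := by exact_mod_cast this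
          linarith
    _ ≤ _ := by
        apply mul_le_mul_of_nonneg_left
        · apply Real.exp_le_exp.mpr
          rw [← Finset.sum_div]
          rw [div_div_eq_mul_div, div_one, div_mul_eq_mul_div]
          apply div_le_div_of_nonneg_right _ hn.le
          linarith
        · apply Finset.prod_nonneg
          intro t _
          have h1 := hdl _ (hA t)
          have h2 := hdl _ (hB t)
          apply mul_nonneg <;> linarith

end Corr

section Plane

variable {F : Type*} [Field F] [Fintype F] [DecidableEq F] {K : ℕ}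

/-- value at `a` of the line with slope `ℓ.1` and intercept `ℓ.2` -/
def lv (ℓ : F × F) (a : F) : F := ℓ.1 * a + ℓ.2

/-- the line with slope `i` through the point `x` -/
def thr (x : F × F) (i : F) : F × F := (i, x.2 - i * x.1)

lemma lv_thr (x : F × F) (i : F) : lv (thr x i) x.1 = x.2 := by
  simp [lv, thr]

/-- values at index `t` that would hit the line `ℓ` (outside the deleted set `D`) -/
def AL (D : Finset ((Fin K × F) × F)) (ℓ : F × F) (t : Fin K × F) : Finset F :=
  if (t, lv ℓ t.2) ∈ D then ∅ else {lv ℓ t.2}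

/-- values at index `t` that would hit some line through `x` -/
def AP (D : Finset ((Fin K × F) × F)) (I : Finset F) (x : F × F) (t : Fin K × F) : Finset F :=
  I.biUnion fun i => AL D (thr x i) t

lemma card_AL_le (D : Finset ((Fin K × F) × F)) (ℓ : F × F) (t : Fin K × F) :
    (AL D ℓ t).card ≤ 1 := by
  unfold AL; split_ifs <;> simp

lemma card_AP_le (D : Finset ((Fin K × F) × F)) (I : Finset F) (x : F × F) (t : Fin K × F) :
    (AP D I x t).card ≤ I.card := by
  unfold AP
  calc (I.biUnion fun i => AL D (thr x i) t).card ≤ ∑ i ∈ I, (AL D (thr x i) t).card :=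
        Finset.card_biUnion_le
    _ ≤ ∑ i ∈ I, 1 := Finset.sum_le_sum fun i _ => card_AL_le D _ t
    _ = I.card := by simp

lemma AL_subset_AP (D : Finset ((Fin K × F) × F)) (I : Finset F) (x : F × F) (i : F) (hi : i ∈ I)
    (t : Fin K × F) : AL D (thr x i) t ⊆ AP D I x t := by
  intro y hy
  exact Finset.mem_biUnion.mpr ⟨i, hi, hy⟩

lemma mem_AL {D : Finset ((Fin K × F) × F)} {ℓ : F × F} {t : Fin K × F} {y : F} :
    y ∈ AL D ℓ t ↔ (t, lv ℓ t.2) ∉ D ∧ y = lv ℓ t.2 := by
  unfold AL; split_ifs with h <;> simp [h]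

/-- counting pairs of distinct slopes -/
lemma sum_inter_le (D : Finset ((Fin K × F) × F)) (I : Finset F) (x x' : F × F)
    (L : Fin K × F → Finset F) (hL : ∀ t, L t ⊆ AP D I x t ∩ AP D I x' t)
    (hsame : ∀ i ∈ I, thr x i = thr x' i → ∀ t, AL D (thr x i) t ⊆ L t) :
    ∑ t, (((AP D I x t ∩ AP D I x' t).card : ℝ) - (L t).card) ≤ (K : ℝ) * (I.card : ℝ) ^ 2 := by
  have h1 : ∀ t, (((AP D I x t ∩ AP D I x' t).card : ℝ) - (L t).card)
      = (((AP D I x t ∩ AP D I x' t) \ L t).card : ℝ) := by
    intro t
    rw [Finset.card_sdiff_of_subset (hL t), Nat.cast_sub (Finset.card_le_card (hL t))]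
  rw [Finset.sum_congr rfl fun t _ => h1 t]
  have h2 : (Finset.univ.sigma fun t : Fin K × F => (AP D I x t ∩ AP D I x' t) \ L t)
      ⊆ ((Finset.univ : Finset (Fin K)) ×ˢ (I ×ˢ I)).image
        (fun z : Fin K × (F × F) =>
          (⟨(z.1, ((thr x' z.2.2).2 - (thr x z.2.1).2) / (z.2.1 - z.2.2)),
            lv (thr x z.2.1) (((thr x' z.2.2).2 - (thr x z.2.1).2) / (z.2.1 - z.2.2))⟩ :
              (_ : Fin K × F) × F)) := by
    intro s hs
    obtain ⟨⟨k, a⟩, y⟩ := s
    simp only [Finset.mem_sigma, Finset.mem_univ, true_and, Finset.mem_sdiff,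
      Finset.mem_inter] at hs
    obtain ⟨⟨hx, hx'⟩, hnL⟩ := hs
    obtain ⟨i, hi, hyi⟩ := Finset.mem_biUnion.mp hx
    obtain ⟨i', hi', hyi'⟩ := Finset.mem_biUnion.mp hx'
    have e1 := mem_AL.mp hyi
    have e2 := mem_AL.mp hyi'
    have hne : i ≠ i' := by
      intro h
      subst h
      apply hnL
      apply hsame i hi _ _ hyi
      have h3 : lv (thr x i) a = lv (thr x' i) a := by
        rw [← e1.2, ← e2.2]
      unfold lv thr at h3
      simp only [add_right_inj] at h3
      unfold thr
      rw [h3]
    simp only [Finset.mem_image, Finset.mem_product, Finset.mem_univ, true_and]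
    refine ⟨(k, (i, i')), ⟨hi, hi'⟩, ?_⟩
    have ha : ((thr x' i').2 - (thr x i).2) / (i - i') = a := by
      rw [div_eq_iff (sub_ne_zero.mpr hne)]
      have h3 : lv (thr x i) a = lv (thr x' i') a := by
        rw [← e1.2, ← e2.2]
      unfold lv thr at h3
      unfold thr
      simp only at h3 ⊢
      linear_combination -h3
    simp only [ha]
    rw [e1.2]
  have h3 := Finset.card_le_card h2
  rw [Finset.card_sigma] at h3
  have h4 := h3.trans Finset.card_image_le
  rw [Finset.card_product, Finset.card_product, Finset.card_univ, Fintype.card_fin] at h4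
  have h5 : ((∑ t : Fin K × F, ((AP D I x t ∩ AP D I x' t) \ L t).card : ℕ) : ℝ)
      ≤ ((K * (I.card * I.card) : ℕ) : ℝ) := by exact_mod_cast h4
  push_cast at h5
  linarith [h5, sq (I.card : ℝ)]

/-- the probability that all lines (with slope in `I`) through `x` are missed -/
noncomputable def πx (D : Finset ((Fin K × F) × F)) (I : Finset F) (x : F × F) : ℝ :=
  ∏ t, (1 - ((AP D I x t).card : ℝ) / Fintype.card F)

/-- the probability that the line `ℓ` is missed -/
noncomputable def uL (D : Finset ((Fin K × F) × F)) (ℓ : F × F) : ℝ :=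
  ∏ t, (1 - ((AL D ℓ t).card : ℝ) / Fintype.card F)

/-- pair correlation for points on a common vertical line -/
lemma pair_vertical (D : Finset ((Fin K × F) × F)) (I : Finset F) (x x' : F × F)
    (hI : 2 * I.card ≤ Fintype.card F)
    (h1 : x.1 = x'.1) (h2 : x ≠ x') :
    ∏ t, (1 - ((AP D I x t ∪ AP D I x' t).card : ℝ) / Fintype.card F)
      ≤ πx D I x * πx D I x' * Real.exp (4 * (K * (I.card : ℝ) ^ 2) / Fintype.card F) := by
  have hn : (0 : ℝ) < Fintype.card F := by exact_mod_cast Fintype.card_pos
  have hIr : 2 * (I.card : ℝ) ≤ Fintype.card F := by exact_mod_cast hI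
  have hA : ∀ y t, ((AP D I y t).card : ℝ) ≤ (Fintype.card F : ℝ) / 2 := by
    intro y t
    have : ((AP D I y t).card : ℝ) ≤ I.card := by exact_mod_cast card_AP_le D I y t
    linarith
  have h := corr_prod (AP D I x) (AP D I x') (fun _ => ∅) (Fintype.card F)
    (K * (I.card : ℝ) ^ 2) hn (by simp) (by simp) (hA x) (hA x') (by simp)
    (by
      intro t
      exact_mod_cast Finset.card_le_univ _)
    (by
      have := sum_inter_le D I x x' (fun _ => ∅) (by simp) (by
        intro i hi hth
        exfalso
        apply h2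
        have h3 : x.2 - i * x.1 = x'.2 - i * x'.1 := (Prod.ext_iff.mp hth).2
        rw [h1] at h3
        exact Prod.ext h1 (sub_left_injective h3))
      simpa using this)
  simpa [πx] using h

/-- pair correlation for points on a common line `ℓ` with slope `i ∈ I` -/
lemma pair_line (D : Finset ((Fin K × F) × F)) (I : Finset F) (x x' : F × F) (i : F) (hi : i ∈ I)
    (hI : 2 * I.card ≤ Fintype.card F)
    (h1 : thr x i = thr x' i) (h2 : x.1 ≠ x'.1) :
    (∏ t, (1 - ((AP D I x t ∪ AP D I x' t).card : ℝ) / Fintype.card F)) * uL D (thr x i)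
      ≤ πx D I x * πx D I x' * Real.exp (4 * (K * (I.card : ℝ) ^ 2) / Fintype.card F) := by
  have hn : (0 : ℝ) < Fintype.card F := by exact_mod_cast Fintype.card_pos
  have hIr : 2 * (I.card : ℝ) ≤ Fintype.card F := by exact_mod_cast hI
  have hA : ∀ y t, ((AP D I y t).card : ℝ) ≤ (Fintype.card F : ℝ) / 2 := by
    intro y t
    have : ((AP D I y t).card : ℝ) ≤ I.card := by exact_mod_cast card_AP_le D I y t
    linarith
  have hsub : ∀ t, AL D (thr x i) t ⊆ AP D I x t ∩ AP D I x' t := by
    intro t
    apply Finset.subset_inter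
    · exact AL_subset_AP D I x i hi t
    · rw [h1]; exact AL_subset_AP D I x' i hi t
  have h := corr_prod (AP D I x) (AP D I x') (AL D (thr x i)) (Fintype.card F)
    (K * (I.card : ℝ) ^ 2) hn hsub (card_AL_le D _) (hA x) (hA x')
    (by intro t; exact_mod_cast Finset.card_le_univ _)
    (by intro t; exact_mod_cast Finset.card_le_univ _)
    (by
      apply sum_inter_le D I x x' _ hsub
      intro j hj hth t
      have : j = i := by
        by_contra hne
        apply h2
        have e1 : x.2 - j * x.1 = x'.2 - j * x'.1 := (Prod.ext_iff.mp hth).2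
        have e2 : x.2 - i * x.1 = x'.2 - i * x'.1 := (Prod.ext_iff.mp h1).2
        have e3 : (j - i) * (x.1 - x'.1) = 0 := by linear_combination e2 - e1
        rcases mul_eq_zero.mp e3 with h | h
        · exact absurd (sub_eq_zero.mp h) hne
        · exact sub_eq_zero.mp h
      rw [this])
  exact h

lemma exp_le_πx (D : Finset ((Fin K × F) × F)) (I : Finset F) (x : F × F)
    (hI : 2 * I.card ≤ Fintype.card F) :
    Real.exp (-(2 * (K * I.card : ℝ))) ≤ πx D I x := by
  have hn : (0 : ℝ) < Fintype.card F := by exact_mod_cast Fintype.card_pos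
  have hIr : 2 * (I.card : ℝ) ≤ Fintype.card F := by exact_mod_cast hI
  unfold πx
  calc Real.exp (-(2 * (K * I.card : ℝ)))
      = ∏ t : Fin K × F, Real.exp (-(2 * ((I.card : ℝ) / Fintype.card F))) := by
        rw [Finset.prod_const, ← Real.exp_nat_mul, Finset.card_univ, Fintype.card_prod,
          Fintype.card_fin]
        congr 1
        push_cast
        field_simp
    _ ≤ _ := by
        apply Finset.prod_le_prod
        · intro t _; positivity
        · intro t _
          have h1 : ((AP D I x t).card : ℝ) ≤ I.card := by exact_mod_cast card_AP_le D I x t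
          have h2 : ((AP D I x t).card : ℝ) / Fintype.card F ≤ (I.card : ℝ) / Fintype.card F :=
            div_le_div_of_nonneg_right h1 hn.le
          have h3 : (I.card : ℝ) / Fintype.card F ≤ 1 / 2 := by
            rw [div_le_iff₀ hn]; linarith
          have h4 := exp_neg_two_le (by positivity : 0 ≤ (I.card : ℝ) / Fintype.card F) h3
          linarith

lemma exp_le_uL (D : Finset ((Fin K × F) × F)) (ℓ : F × F)
    (hF : 2 ≤ Fintype.card F) :
    Real.exp (-(2 * (K : ℝ))) ≤ uL D ℓ := by
  have hn : (0 : ℝ) < Fintype.card F := by exact_mod_cast Fintype.card_pos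
  have hIr : (2 : ℝ) ≤ Fintype.card F := by exact_mod_cast hF
  unfold uL
  calc Real.exp (-(2 * (K : ℝ)))
      = ∏ t : Fin K × F, Real.exp (-(2 * ((1 : ℝ) / Fintype.card F))) := by
        rw [Finset.prod_const, ← Real.exp_nat_mul, Finset.card_univ, Fintype.card_prod,
          Fintype.card_fin]
        congr 1
        push_cast
        field_simp
    _ ≤ _ := by
        apply Finset.prod_le_prod
        · intro t _; positivity
        · intro t _
          have h1 : ((AL D ℓ t).card : ℝ) ≤ 1 := by exact_mod_cast card_AL_le D ℓ t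
          have h2 : ((AL D ℓ t).card : ℝ) / Fintype.card F ≤ (1 : ℝ) / Fintype.card F :=
            div_le_div_of_nonneg_right h1 hn.le
          have h3 : (1 : ℝ) / Fintype.card F ≤ 1 / 2 := by
            rw [div_le_iff₀ hn]; linarith
          have h4 := exp_neg_two_le (by positivity : 0 ≤ (1 : ℝ) / Fintype.card F) h3
          linarith

lemma uL_le_one (D : Finset ((Fin K × F) × F)) (ℓ : F × F) : uL D ℓ ≤ 1 := by
  have hn : (0 : ℝ) < Fintype.card F := by exact_mod_cast Fintype.card_pos
  unfold uL
  apply Finset.prod_le_one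
  · intro t _
    have : ((AL D ℓ t).card : ℝ) / Fintype.card F ≤ 1 := by
      rw [div_le_one hn]; exact_mod_cast Finset.card_le_univ _
    linarith
  · intro t _
    have : 0 ≤ ((AL D ℓ t).card : ℝ) / Fintype.card F := by positivity
    linarith

/-- a line few of whose points are deleted is missed with small probability -/
lemma uL_le_exp (D : Finset ((Fin K × F) × F)) (ℓ : F × F)
    (h : (K : ℝ) * Fintype.card F / 2
      ≤ ((Finset.univ.filter fun t : Fin K × F => (t, lv ℓ t.2) ∉ D).card : ℝ)) :
    uL D ℓ ≤ Real.exp (-(K / 2 : ℝ)) := by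
  have hn : (0 : ℝ) < Fintype.card F := by exact_mod_cast Fintype.card_pos
  unfold uL
  calc ∏ t, (1 - ((AL D ℓ t).card : ℝ) / Fintype.card F)
      ≤ ∏ t : Fin K × F, Real.exp (-(((AL D ℓ t).card : ℝ) / Fintype.card F)) := by
        apply Finset.prod_le_prod
        · intro t _
          have : ((AL D ℓ t).card : ℝ) / Fintype.card F ≤ 1 := by
            rw [div_le_one hn]; exact_mod_cast Finset.card_le_univ _
          linarith
        · intro t _
          have := Real.add_one_le_exp (-(((AL D ℓ t).card : ℝ) / Fintype.card F))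
          linarith
    _ = Real.exp (-((∑ t : Fin K × F, ((AL D ℓ t).card : ℝ)) / Fintype.card F)) := by
        rw [← Real.exp_sum, Finset.sum_neg_distrib, Finset.sum_div]
    _ ≤ _ := by
        apply Real.exp_le_exp.mpr
        have h1 : ∑ t : Fin K × F, ((AL D ℓ t).card : ℝ)
            = ((Finset.univ.filter fun t : Fin K × F => (t, lv ℓ t.2) ∉ D).card : ℝ) := by
          rw [Finset.card_filter]
          push_cast
          apply Finset.sum_congr rfl
          intro t _
          unfold AL
          by_cases ht : (t, lv ℓ t.2) ∈ D <;> simp [ht]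
        rw [h1]
        have h2 : (K : ℝ) / 2 ≤ ((Finset.univ.filter fun t : Fin K × F =>
            (t, lv ℓ t.2) ∉ D).card : ℝ) / Fintype.card F := by
          rw [le_div_iff₀ hn]; linarith
        linarith

end Plane

end Pool.Agent.V1120.TC
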