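import Pool.Agent.V1120.TC.Core

/-!
From label functions to edge-coloured graphs without small monochromatic tree covers.
-/

open Finset

namespace Pool.Agent.V1120.TC

section Lab

variable {V C S : Type*}

/-- two vertices are adjacent if they share a label in some colour -/
def labGraph (lab : V → C → Option S) : SimpleGraph V where
  Adj v w := v ≠ w ∧ ∃ c s, lab v c = some s ∧ lab w c = some s
  symm := ⟨fun _ _ h => ⟨h.1.symm, by
    obtain ⟨c, s, h1, h2⟩ := h.2
    exact ⟨c, s, h2, h1⟩⟩⟩
  loopless := ⟨fun _ h => h.1 rfl⟩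

lemma labGraph_edge (lab : V → C → Option S) (e : Sym2 V) (he : e ∈ (labGraph lab).edgeSet) :
    ∃ c, ∃ s, ∀ v ∈ e, lab v c = some s := by
  induction e with
  | h x y =>
    rw [SimpleGraph.mem_edgeSet] at he
    obtain ⟨-, c, s, h1, h2⟩ := he
    refine ⟨c, s, ?_⟩
    intro v hv
    rw [Sym2.mem_iff] at hv
    rcases hv with rfl | rfl
    · exact h1
    · exact h2

/-- a colour in which the ends of an edge share their label -/
noncomputable def labCol (lab : V → C → Option S) : (labGraph lab).EdgeLabeling C :=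
  fun e => Classical.choose (labGraph_edge lab e.1 e.2)

lemma labCol_spec (lab : V → C → Option S) (e : (labGraph lab).edgeSet) :
    ∃ s, ∀ v ∈ (e : Sym2 V), lab v (labCol lab e) = some s :=
  Classical.choose_spec (labGraph_edge lab e.1 e.2)

/-- in a connected monochromatic subgraph with two vertices all vertices share a label -/
lemma mono_label (lab : V → C → Option S) (H : (labGraph lab).Subgraph)
    (hH : H.coe.Connected) (c : C)
    (hc : ∀ e : (labGraph lab).edgeSet, (e : Sym2 V) ∈ H.edgeSet → labCol lab e = c)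
    (v w : V) (hv : v ∈ H.verts) (hw : w ∈ H.verts) (hvw : v ≠ w) :
    ∃ s, ∀ x ∈ H.verts, lab x c = some s := by
  have hstep : ∀ x y : H.verts, H.coe.Adj x y → ∃ s, lab x c = some s ∧ lab y c = some s := by
    intro x y hxy
    have h1 : H.Adj x y := hxy
    have h2 : s((x : V), (y : V)) ∈ (labGraph lab).edgeSet := H.adj_sub h1
    have h3 := hc ⟨_, h2⟩ h1
    obtain ⟨s, hs⟩ := labCol_spec lab ⟨_, h2⟩
    rw [h3] at hs
    exact ⟨s, hs _ (Sym2.mem_mk_left _ _), hs _ (Sym2.mem_mk_right _ _)⟩
  have hwalk : ∀ x y : H.verts, H.coe.Walk x y → lab x c = lab y c := by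
    intro x y p
    induction p with
    | nil => rfl
    | cons h _ ih =>
      obtain ⟨s, h1, h2⟩ := hstep _ _ h
      rw [← ih, h1, h2]
  obtain ⟨p⟩ := hH.preconnected ⟨v, hv⟩ ⟨w, hw⟩
  have hfirst : ∃ s, lab v c = some s := by
    cases p with
    | nil => exact absurd rfl hvw
    | cons h _ =>
      obtain ⟨s, h1, _⟩ := hstep _ _ h
      exact ⟨s, h1⟩
  obtain ⟨s, hs⟩ := hfirst
  refine ⟨s, ?_⟩
  intro x hx
  obtain ⟨q⟩ := hH.preconnected ⟨v, hv⟩ ⟨x, hx⟩
  have := hwalk _ _ q
  simp only at this
  rw [← this, hs]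

/-- lower bound for the size of tree covers -/
lemma cover_bound (lab : V → C → Option S) (B : ℕ)
    (htest : ∀ P : Finset (C × S), P.card < B → ∃ t : Fin B → V, Function.Injective t ∧
      ∀ l c s, lab (t l) c = some s → (c, s) ∉ P)
    (𝓣 : Finset (labGraph lab).Subgraph)
    (h1 : ∀ H ∈ 𝓣, H.coe.IsTree ∧ ∃ c : C, ∀ e : (labGraph lab).edgeSet,
      (e : Sym2 V) ∈ H.edgeSet → labCol lab e = c)
    (h2 : ∀ v, ∃ H ∈ 𝓣, v ∈ H.verts) : B ≤ 𝓣.card := by
  classical
  by_contra hcon
  push Not at hcon
  let pt : (labGraph lab).Subgraph → Finset (C × S) := fun H =>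
    if h : ∃ p : C × S, ∀ v ∈ H.verts, lab v p.1 = some p.2 then {Classical.choose h} else ∅
  have hpt : ∀ H, (pt H).card ≤ 1 := by
    intro H
    simp only [pt]
    split_ifs <;> simp
  let P : Finset (C × S) := 𝓣.biUnion pt
  have hP : P.card < B := by
    refine lt_of_le_of_lt ?_ hcon
    calc P.card ≤ ∑ H ∈ 𝓣, (pt H).card := Finset.card_biUnion_le
      _ ≤ ∑ H ∈ 𝓣, 1 := Finset.sum_le_sum fun H _ => hpt H
      _ = 𝓣.card := by simp
  obtain ⟨t, ht, htP⟩ := htest P hP
  choose T hT using h2
  have hsingle : ∀ l, ∀ w ∈ (T (t l)).verts, w = t l := by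
    intro l w hw
    by_contra hne
    obtain ⟨hTm, hTv⟩ := hT (t l)
    obtain ⟨htree, c, hc⟩ := h1 _ hTm
    obtain ⟨s, hs⟩ := mono_label lab (T (t l)) htree.connected c hc w (t l) hw hTv hne
    have hex : ∃ p : C × S, ∀ v ∈ (T (t l)).verts, lab v p.1 = some p.2 := ⟨(c, s), hs⟩
    have h3 := Classical.choose_spec hex (t l) hTv
    apply htP l _ _ h3
    apply Finset.mem_biUnion.mpr
    refine ⟨T (t l), hTm, ?_⟩
    simp only [pt]
    rw [dif_pos hex]
    simp
  have hinj : Function.Injective (fun l : Fin B => (⟨T (t l), (hT (t l)).1⟩ : 𝓣)) := by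
    intro l l' hll
    have h3 : T (t l) = T (t l') := by simpa using hll
    have h4 : t l' ∈ (T (t l)).verts := by rw [h3]; exact (hT (t l')).2
    exact ht (hsingle l _ h4).symm
  have h5 := Fintype.card_le_of_injective _ hinj
  rw [Fintype.card_fin, Fintype.card_coe] at h5
  omega

end Lab

section Construct

variable {F : Type} [Field F] [Fintype F] [DecidableEq F]

/-- colours -/
abbrev Col (K : ℕ) (F : Type) : Type := Option ((Fin K × F) ⊕ F)

/-- vertices: copies of lines, and test vertices -/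
abbrev Wv (K M B : ℕ) (I : Finset F) : Type :=
  ({ℓ : F × F // ℓ ∈ I ×ˢ (Finset.univ : Finset F)} × Fin M) ⊕ (Finset (Col K F × F) × Fin B)

/-- labels -/
def labW {K M B : ℕ} {I : Finset F} (e₁ : Finset (Col K F × F) → Fin K × F → Option F)
    (e₂ : Finset (Col K F × F) → F → Option F) : Wv K M B I → Col K F → Option F
  | Sum.inl _, none => some 0
  | Sum.inl (ℓ, _), some (Sum.inl t) => some (lv ℓ.1 t.2)
  | Sum.inl (ℓ, _), some (Sum.inr a) => some (lv ℓ.1 a)
  | Sum.inr _, none => none
  | Sum.inr (P, _), some (Sum.inl t) => e₁ P t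
  | Sum.inr (P, _), some (Sum.inr a) => e₂ P a

/-- The construction: for all large `M` a graph on `Fin n` as required. -/
theorem construct (K d : ℕ) (hK : 1 ≤ K) (hd : 1 ≤ d) (hdF : 2 * d ≤ Fintype.card F)
    (B : ℕ) (hB0 : 1 ≤ B) (hB : 8 * (B - 1) ≤ (Fintype.card F) ^ 2)
    (hρ : rho K d (Fintype.card F) * Real.exp (2 * (K * d : ℝ)) ≤ 1 / 8)
    (δ : ℝ) (hδ0 : 0 < δ) (hδ1 : δ < 1)
    (hδ : 2 / (d : ℝ) + rho K d (Fintype.card F) + Real.exp (-(Real.exp (K / 2 : ℝ) / 16))
      ≤ δ / 2)
    (r : ℕ) (hr : (K + 1) * Fintype.card F + 1 ≤ r) (n₀ : ℕ) :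
    ∃ n, n₀ ≤ n ∧ ∃ lab : Fin n → Fin r → Option F,
      (∀ v, (1 - δ) * n ≤ (((labGraph lab).neighborSet v).ncard : ℝ)) ∧
      (∀ P : Finset (Fin r × F), P.card < B → ∃ t : Fin B → Fin n, Function.Injective t ∧
        ∀ l c s, lab (t l) c = some s → (c, s) ∉ P) := by
  classical
  obtain ⟨I, -, hIc⟩ := Finset.exists_subset_card_eq (s := (Finset.univ : Finset F)) (n := d)
    (by rw [Finset.card_univ]; omega)
  have hI1 : 1 ≤ I.card := by omega
  have hI : 2 * I.card ≤ Fintype.card F := by omega
  set g : ℝ := (Fintype.card F : ℝ) with hg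
  have hgpos : 0 < g := by rw [hg]; exact_mod_cast Fintype.card_pos
  have hdpos : (0 : ℝ) < d := by exact_mod_cast hd
  -- the covers
  have hcore : ∀ P : Finset (Col K F × F), ∃ (e₁ : Fin K × F → Option F) (e₂ : F → Option F),
      (P.card < B → (∀ t b, e₁ t = some b → (some (Sum.inl t), b) ∉ P) ∧
        (∀ a b, e₂ a = some b → (some (Sum.inr a), b) ∉ P)) ∧
      (((I ×ˢ (Finset.univ : Finset F)).filter fun ℓ =>
        (∀ t : Fin K × F, e₁ t ≠ some (lv ℓ t.2)) ∧ ∀ a, e₂ a ≠ some (lv ℓ a)).card : ℝ)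
        ≤ δ / 2 * (d * g) := by
    have hbound : 2 * (Fintype.card F : ℝ) + rho K I.card (Fintype.card F)
        * (I.card * Fintype.card F)
        + (I.card * Fintype.card F) * Real.exp (-(Real.exp (K / 2 : ℝ) / 16))
        ≤ δ / 2 * (d * g) := by
      rw [hIc, ← hg]
      have h1 : 2 * g = 2 / (d : ℝ) * (d * g) := by field_simp
      rw [h1]
      have h2 := mul_le_mul_of_nonneg_right hδ (by positivity : 0 ≤ (d : ℝ) * g)
      nlinarith
    have hρ' : rho K I.card (Fintype.card F) * Real.exp (2 * (K * I.card : ℝ)) ≤ 1 / 8 := by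
      rw [hIc]; exact hρ
    intro P
    by_cases hP : P.card < B
    · let D₁ : Finset ((Fin K × F) × F) := Finset.univ.filter fun p => (some (Sum.inl p.1), p.2) ∈ P
      let D₂ : Finset (F × F) := Finset.univ.filter fun p => (some (Sum.inr p.1), p.2) ∈ P
      have hD1 : D₁.card ≤ P.card := by
        apply Finset.card_le_card_of_injOn
          (fun p => ((some (Sum.inl p.1), p.2) : Col K F × F))
        · intro p hp
          exact (Finset.mem_filter.mp hp).2
        · intro p _ q _ hpq
          have := Prod.ext_iff.mp hpq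
          apply Prod.ext
          · simpa using this.1
          · exact this.2
      have hD2 : D₂.card ≤ P.card := by
        apply Finset.card_le_card_of_injOn
          (fun p => ((some (Sum.inr p.1), p.2) : Col K F × F))
        · intro p hp
          exact (Finset.mem_filter.mp hp).2
        · intro p _ q _ hpq
          have := Prod.ext_iff.mp hpq
          apply Prod.ext
          · simpa using this.1
          · exact this.2
      obtain ⟨e₁, e₂, h1, h2, h3⟩ := core hK I hI1 hI D₁ D₂ (by omega) (by omega) hρ'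
      refine ⟨e₁, e₂, fun _ => ⟨?_, ?_⟩, h3.trans hbound⟩
      · intro t b htb hmem
        exact h1 t b htb (Finset.mem_filter.mpr ⟨Finset.mem_univ _, hmem⟩)
      · intro a b hab hmem
        exact h2 a b hab (Finset.mem_filter.mpr ⟨Finset.mem_univ _, hmem⟩)
    · obtain ⟨e₁, e₂, h1, h2, h3⟩ := core hK I hI1 hI ∅ ∅ (by simp) (by simp) hρ'
      exact ⟨e₁, e₂, fun h => absurd h hP, h3.trans hbound⟩
  choose e₁ e₂ hE1 hE2 using hcore
  -- choice of `M`
  set E : ℕ := Fintype.card (Finset (Col K F × F) × Fin B) with hE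
  obtain ⟨M, hM⟩ := exists_nat_ge (((E : ℝ) + 1) * 2 / (δ * (d * g)) + n₀ + 1)
  have hdg : 0 < (d : ℝ) * g := by positivity
  have hM1 : ((E : ℝ) + 1) * 2 ≤ δ * (d * g * M) := by
    have h0 : ((E : ℝ) + 1) * 2 / (δ * (d * g)) ≤ M := by
      have : (0 : ℝ) ≤ n₀ := by positivity
      linarith
    rw [div_le_iff₀ (by positivity)] at h0
    linarith
  have hMn : (n₀ : ℝ) ≤ M := by
    have : 0 ≤ ((E : ℝ) + 1) * 2 / (δ * (d * g)) := by positivity
    linarith
  have hMn' : n₀ ≤ M := by exact_mod_cast hMn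
  let lab0 : Wv K M B I → Col K F → Option F := labW e₁ e₂
  have hLc : Fintype.card {ℓ : F × F // ℓ ∈ I ×ˢ (Finset.univ : Finset F)}
      = d * Fintype.card F := by
    rw [Fintype.card_coe, Finset.card_product, hIc, Finset.card_univ]
  have hWc : Fintype.card (Wv K M B I) = d * Fintype.card F * M + E := by
    rw [Fintype.card_sum, Fintype.card_prod, hLc, Fintype.card_fin]
  have hCc : Fintype.card (Col K F) ≤ Fintype.card (Fin r) := by
    rw [Fintype.card_option, Fintype.card_sum, Fintype.card_prod, Fintype.card_fin,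
      Fintype.card_fin]
    linarith
  set n : ℕ := Fintype.card (Wv K M B I) with hn
  let ε : Wv K M B I ≃ Fin n := Fintype.equivFin _
  obtain ⟨κ⟩ : Nonempty (Col K F ↪ Fin r) := Function.Embedding.nonempty_of_card_le hCc
  let lab : Fin n → Fin r → Option F := fun v =>
    Function.extend κ (lab0 (ε.symm v)) (fun _ => none)
  have hlabκ : ∀ (w : Wv K M B I) (c : Col K F), lab (ε w) (κ c) = lab0 w c := by
    intro w c
    simp only [lab]
    rw [κ.injective.extend_apply, Equiv.symm_apply_apply]
  have hnr : (n : ℝ) = d * g * M + E := by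
    rw [hWc]; push_cast; rfl
  have hFc : 0 < Fintype.card F := Fintype.card_pos
  refine ⟨n, ?_, lab, ?_, ?_⟩
  · rw [hWc]
    have : M ≤ d * Fintype.card F * M := by
      have : 1 ≤ d * Fintype.card F := Nat.mul_pos hd hFc
      nlinarith
    omega
  · -- degrees
    have hneigh : ∀ (v : Wv K M B I)
        (T : Finset ({ℓ : F × F // ℓ ∈ I ×ˢ (Finset.univ : Finset F)} × Fin M)),
        (∀ p ∈ T, Sum.inl p ≠ v ∧ ∃ c s, lab0 v c = some s ∧ lab0 (Sum.inl p) c = some s) →
        (T.card : ℝ) ≤ (((labGraph lab).neighborSet (ε v)).ncard : ℝ) := by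
      intro v T hT
      have h1 : (T.image fun p => ε (Sum.inl p)).card = T.card := by
        apply Finset.card_image_of_injective
        intro p q hpq
        exact Sum.inl_injective (ε.injective hpq)
      rw [← h1, ← Set.ncard_coe_finset]
      have h2 : ((T.image fun p => ε (Sum.inl p)) : Set (Fin n))
          ⊆ (labGraph lab).neighborSet (ε v) := by
        intro x hx
        rw [Finset.mem_coe, Finset.mem_image] at hx
        obtain ⟨p, hp, rfl⟩ := hx
        obtain ⟨h3, c, s, h4, h5⟩ := hT p hp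
        refine ⟨fun h => h3 (ε.injective h).symm, κ c, s, ?_, ?_⟩
        · rw [hlabκ]; exact h4
        · rw [hlabκ]; exact h5
      exact_mod_cast Set.ncard_le_ncard h2 (Set.toFinite _)
    intro v
    obtain ⟨w, rfl⟩ := ε.surjective v
    rw [hnr]
    have hE0 : (0 : ℝ) ≤ E := by positivity
    have hdgM : (0 : ℝ) ≤ d * g * M := by positivity
    rcases w with p | ⟨P, l⟩
    · have h1 := hneigh (Sum.inl p) (Finset.univ.erase p) (by
        intro q hq
        refine ⟨fun h => (Finset.ne_of_mem_erase hq) (Sum.inl_injective h), none, 0, ?_, ?_⟩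
        · rfl
        · rfl)
      have h2 : ((Finset.univ.erase p).card : ℝ) = d * g * M - 1 := by
        rw [Finset.card_erase_of_mem (Finset.mem_univ _), Finset.card_univ, Fintype.card_prod,
          hLc, Fintype.card_fin]
        have : 1 ≤ d * Fintype.card F * M := by
          have h3 : 0 < Fintype.card
              ({ℓ : F × F // ℓ ∈ I ×ˢ (Finset.univ : Finset F)} × Fin M) :=
            Fintype.card_pos_iff.mpr ⟨p⟩
          rw [Fintype.card_prod, hLc, Fintype.card_fin] at h3
          exact h3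
        rw [Nat.cast_sub this]
        push_cast
        rfl
      rw [h2] at h1
      refine le_trans ?_ h1
      nlinarith
    · -- test vertex
      let T : Finset ({ℓ : F × F // ℓ ∈ I ×ˢ (Finset.univ : Finset F)} × Fin M) :=
        (Finset.univ.filter fun ℓ => ¬ ((∀ t : Fin K × F, e₁ P t ≠ some (lv ℓ.1 t.2)) ∧
          ∀ a, e₂ P a ≠ some (lv ℓ.1 a))) ×ˢ Finset.univ
      have h1 := hneigh (Sum.inr (P, l)) T (by
        intro q hq
        refine ⟨by simp, ?_⟩
        have h2 := (Finset.mem_filter.mp (Finset.mem_product.mp hq).1).2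
        by_cases h3 : ∃ t : Fin K × F, e₁ P t = some (lv q.1.1 t.2)
        · obtain ⟨t, ht⟩ := h3
          exact ⟨some (Sum.inl t), lv q.1.1 t.2, ht, rfl⟩
        · push Not at h3
          have h4 : ∃ a, e₂ P a = some (lv q.1.1 a) := by
            by_contra h5
            push Not at h5
            exact h2 ⟨h3, h5⟩
          obtain ⟨a, ha⟩ := h4
          exact ⟨some (Sum.inr a), lv q.1.1 a, ha, rfl⟩)
      have h2 : d * g * M * (1 - δ / 2) ≤ (T.card : ℝ) := by
        have h3 : (T.card : ℝ) = ((Finset.univ.filter fun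
            ℓ : {ℓ : F × F // ℓ ∈ I ×ˢ (Finset.univ : Finset F)} =>
            ¬ ((∀ t : Fin K × F, e₁ P t ≠ some (lv ℓ.1 t.2)) ∧
            ∀ a, e₂ P a ≠ some (lv ℓ.1 a))).card : ℝ) * M := by
          simp only [T]
          rw [Finset.card_product, Finset.card_univ, Fintype.card_fin]
          push_cast
          rfl
        have h4 := Finset.card_filter_add_card_filter_not
          (s := (Finset.univ : Finset {ℓ : F × F // ℓ ∈ I ×ˢ (Finset.univ : Finset F)}))
          (fun ℓ => ((∀ t : Fin K × F, e₁ P t ≠ some (lv ℓ.1 t.2)) ∧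
            ∀ a, e₂ P a ≠ some (lv ℓ.1 a)))
        have h5 : (Finset.univ.filter fun
            ℓ : {ℓ : F × F // ℓ ∈ I ×ˢ (Finset.univ : Finset F)} =>
            ((∀ t : Fin K × F, e₁ P t ≠ some (lv ℓ.1 t.2)) ∧
            ∀ a, e₂ P a ≠ some (lv ℓ.1 a))).card
            = ((I ×ˢ (Finset.univ : Finset F)).filter fun ℓ =>
            (∀ t : Fin K × F, e₁ P t ≠ some (lv ℓ t.2)) ∧ ∀ a, e₂ P a ≠ some (lv ℓ a)).card := by
          apply Finset.card_bij (fun ℓ _ => ℓ.1)
          · intro ℓ hℓ
            rw [Finset.mem_filter] at hℓ ⊢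
            exact ⟨ℓ.2, hℓ.2⟩
          · intro a _ b _ hab
            exact Subtype.ext hab
          · intro b hb
            rw [Finset.mem_filter] at hb
            exact ⟨⟨b, hb.1⟩, Finset.mem_filter.mpr ⟨Finset.mem_univ _, hb.2⟩, rfl⟩
        have h6 := hE2 P
        rw [← h5] at h6
        rw [Finset.card_univ, hLc] at h4
        have h7 : ((Finset.univ.filter fun
            ℓ : {ℓ : F × F // ℓ ∈ I ×ˢ (Finset.univ : Finset F)} =>
            ((∀ t : Fin K × F, e₁ P t ≠ some (lv ℓ.1 t.2)) ∧
            ∀ a, e₂ P a ≠ some (lv ℓ.1 a))).card : ℝ) + ((Finset.univ.filter fun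
            ℓ : {ℓ : F × F // ℓ ∈ I ×ˢ (Finset.univ : Finset F)} =>
            ¬ ((∀ t : Fin K × F, e₁ P t ≠ some (lv ℓ.1 t.2)) ∧
            ∀ a, e₂ P a ≠ some (lv ℓ.1 a))).card : ℝ) = d * g := by
          have : ((d * Fintype.card F : ℕ) : ℝ) = d * g := by push_cast; rfl
          rw [← this, ← h4]
          push_cast
          rfl
        rw [h3]
        have hM0 : (0 : ℝ) ≤ M := by positivity
        calc d * g * M * (1 - δ / 2) = (d * g - δ / 2 * (d * g)) * M := by ring
          _ ≤ _ := by
            apply mul_le_mul_of_nonneg_right _ hM0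
            linarith
      refine le_trans ?_ h1
      refine le_trans ?_ h2
      nlinarith
  · -- test vertices
    intro P hP
    let P' : Finset (Col K F × F) := Finset.univ.filter fun p => (κ p.1, p.2) ∈ P
    have hP' : P'.card < B := by
      refine lt_of_le_of_lt ?_ hP
      apply Finset.card_le_card_of_injOn (fun p => (κ p.1, p.2))
      · intro p hp
        exact (Finset.mem_filter.mp hp).2
      · intro p _ q _ hpq
        have := Prod.ext_iff.mp hpq
        exact Prod.ext (κ.injective this.1) this.2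
    refine ⟨fun l => ε (Sum.inr (P', l)), ?_, ?_⟩
    · intro l l' hll
      have h1 : (Sum.inr (P', l) : Wv K M B I) = Sum.inr (P', l') := ε.injective hll
      have h2 := Sum.inr_injective h1
      exact (Prod.ext_iff.mp h2).2
    · intro l c s hs hmem
      by_cases hc : ∃ x, κ x = c
      · obtain ⟨x, rfl⟩ := hc
        rw [hlabκ] at hs
        have h2 : (x, s) ∈ P' := Finset.mem_filter.mpr ⟨Finset.mem_univ _, hmem⟩
        obtain ⟨h3, h4⟩ := hE1 P' hP'
        cases x with
        | none => simp [lab0, labW] at hs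
        | some q =>
          cases q with
          | inl t => exact h3 t s hs h2
          | inr a => exact h4 a s hs h2
      · simp only [lab] at hs
        rw [Function.extend_apply' _ _ _ hc] at hs
        simp at hs

end Construct

end Pool.Agent.V1120.TC
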