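import Pool.Agent.V1120.TC.Geom

/-!
The two random phases of the cover construction.
-/

open Finset

namespace Pool.Agent.V1120.TC

section PhaseTwo

variable {F : Type*} [Field F] [Fintype F] [DecidableEq F]

/-- second phase: pick at most one value for every `a`, with given weights -/
lemma phase_two (W : F → F → ℝ) (hW : ∀ a b, 0 ≤ W a b) (wmax : ℝ) (hwm : ∀ a b, W a b ≤ wmax)
    (N : ℝ) (hN : ((Finset.univ.filter fun a : F => 1 < ∑ b, W a b).card : ℝ) ≤ N)
    (𝓛 : Finset (F × F)) (M : ℝ) (hM : ∀ ℓ ∈ 𝓛, M ≤ ∑ a, W a (lv ℓ a)) :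
    ∃ e : F → Option F, (∀ a b, e a = some b → 0 < W a b) ∧
      ((𝓛.filter fun ℓ => ∀ a, e a ≠ some (lv ℓ a)).card : ℝ)
        ≤ 𝓛.card * Real.exp (-(M - N * wmax)) := by
  classical
  have hwmax0 : 0 ≤ wmax := le_trans (hW 0 0) (hwm 0 0)
  let p : F → Option F → ℝ := fun a o =>
    if ∑ b, W a b ≤ 1 then o.elim (1 - ∑ b, W a b) (fun b => W a b)
    else o.elim 1 (fun _ => 0)
  have hp : ∀ a o, 0 ≤ p a o := by
    intro a o
    simp only [p]
    split_ifs with h
    · cases o with
      | none => simpa using h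
      | some b => simpa using hW a b
    · cases o with
      | none => simp
      | some b => simp
  have hs : ∀ a, ∑ o, p a o = 1 := by
    intro a
    rw [Fintype.sum_option]
    simp only [p]
    split_ifs with h
    · simp
    · simp
  obtain ⟨e, he1, he2⟩ := exists_le_of_ex_le p hp hs
    (fun e => ∑ ℓ ∈ 𝓛, if ∀ a, e a ∈ ({some (lv ℓ a)} : Finset (Option F))ᶜ then (1 : ℝ) else 0)
    (𝓛.card * Real.exp (-(M - N * wmax))) (by
      rw [ex_sum]
      calc ∑ ℓ ∈ 𝓛, Ex p (fun e => if ∀ a, e a ∈ ({some (lv ℓ a)} : Finset (Option F))ᶜ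
              then (1 : ℝ) else 0)
          ≤ ∑ ℓ ∈ 𝓛, Real.exp (-(M - N * wmax)) := by
            apply Finset.sum_le_sum
            intro ℓ hℓ
            rw [ex_event p (fun a => ({some (lv ℓ a)} : Finset (Option F))ᶜ)]
            have h1 : ∀ a, ∑ y ∈ ({some (lv ℓ a)} : Finset (Option F))ᶜ, p a y
                = 1 - p a (some (lv ℓ a)) := by
              intro a
              have := Finset.sum_compl_add_sum ({some (lv ℓ a)} : Finset (Option F)) (p a)
              rw [hs a, Finset.sum_singleton] at this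
              linarith
            rw [Finset.prod_congr rfl fun a _ => h1 a]
            calc ∏ a, (1 - p a (some (lv ℓ a)))
                ≤ ∏ a, Real.exp (-(p a (some (lv ℓ a)))) := by
                  apply Finset.prod_le_prod
                  · intro a _
                    have h2 := hs a
                    have h3 : p a (some (lv ℓ a)) ≤ ∑ o, p a o :=
                      Finset.single_le_sum (fun o _ => hp a o) (Finset.mem_univ _)
                    linarith
                  · intro a _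
                    have := Real.add_one_le_exp (-(p a (some (lv ℓ a))))
                    linarith
              _ = Real.exp (-(∑ a, p a (some (lv ℓ a)))) := by
                  rw [← Real.exp_sum, Finset.sum_neg_distrib]
              _ ≤ Real.exp (-(M - N * wmax)) := by
                  apply Real.exp_le_exp.mpr
                  apply neg_le_neg
                  have h4 : ∑ a, W a (lv ℓ a) ≤ ∑ a, (p a (some (lv ℓ a))
                      + if 1 < ∑ b, W a b then wmax else 0) := by
                    apply Finset.sum_le_sum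
                    intro a _
                    simp only [p]
                    by_cases h : ∑ b, W a b ≤ 1
                    · rw [if_pos h, if_neg (not_lt.mpr h)]
                      simp
                    · rw [if_neg h, if_pos (not_le.mp h)]
                      simpa using hwm a (lv ℓ a)
                  rw [Finset.sum_add_distrib, ← Finset.sum_filter, Finset.sum_const,
                    nsmul_eq_mul] at h4
                  have h5 := hM ℓ hℓ
                  have h6 := mul_le_mul_of_nonneg_right hN hwmax0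
                  linarith
        _ = 𝓛.card * Real.exp (-(M - N * wmax)) := by
            rw [Finset.sum_const, nsmul_eq_mul])
  refine ⟨e, ?_, ?_⟩
  · intro a b hab
    have := he1 a
    rw [hab] at this
    simp only [p] at this
    split_ifs at this with h
    · simpa using this
    · simp at this
  · refine le_trans (le_of_eq ?_) he2
    rw [Finset.card_filter]
    push_cast
    apply Finset.sum_congr rfl
    intro ℓ _
    simp

end PhaseTwo

section PhaseOne

variable {F : Type*} [Field F] [Fintype F] [DecidableEq F] {K : ℕ}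

/-- uniform weights -/
noncomputable def pu (K : ℕ) (F : Type*) [Fintype F] : Fin K × F → F → ℝ :=
  fun _ _ => 1 / (Fintype.card F : ℝ)

lemma pu_nonneg (t : Fin K × F) (y : F) : 0 ≤ pu K F t y := by
  unfold pu; positivity

lemma pu_sum (t : Fin K × F) : ∑ y, pu K F t y = 1 := by
  have hn : (0 : ℝ) < Fintype.card F := by exact_mod_cast Fintype.card_pos
  unfold pu
  rw [Finset.sum_const, nsmul_eq_mul, Finset.card_univ]
  field_simp

lemma ex_avoid (A : Fin K × F → Finset F) :
    Ex (pu K F) (fun β => if ∀ t, β t ∉ A t then 1 else 0)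
      = ∏ t, (1 - ((A t).card : ℝ) / Fintype.card F) := by
  have hn : (0 : ℝ) < Fintype.card F := by exact_mod_cast Fintype.card_pos
  have h := ex_event (pu K F) (fun t => (A t)ᶜ)
  simp only [Finset.mem_compl] at h
  rw [h]
  apply Finset.prod_congr rfl
  intro t _
  unfold pu
  rw [Finset.sum_const, nsmul_eq_mul, Finset.card_compl, Nat.cast_sub (Finset.card_le_univ _)]
  field_simp

/-- indicator: all lines through `x` with slope in `I` are missed by `β` -/
noncomputable def qx (D : Finset ((Fin K × F) × F)) (I : Finset F) (x : F × F)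
    (β : Fin K × F → F) : ℝ :=
  if ∀ t, β t ∉ AP D I x t then 1 else 0

/-- indicator: the line `ℓ` is missed by `β` -/
noncomputable def qL (D : Finset ((Fin K × F) × F)) (ℓ : F × F) (β : Fin K × F → F) : ℝ :=
  if ∀ t, β t ∉ AL D ℓ t then 1 else 0

lemma ex_qx (D : Finset ((Fin K × F) × F)) (I : Finset F) (x : F × F) :
    Ex (pu K F) (qx D I x) = πx D I x := ex_avoid _

lemma ex_qL (D : Finset ((Fin K × F) × F)) (ℓ : F × F) :
    Ex (pu K F) (qL D ℓ) = uL D ℓ := ex_avoid _

lemma qx_mul (D : Finset ((Fin K × F) × F)) (I : Finset F) (x x' : F × F) (β : Fin K × F → F) :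
    qx D I x β * qx D I x' β = if ∀ t, β t ∉ (AP D I x t ∪ AP D I x' t) then 1 else 0 := by
  unfold qx
  by_cases h1 : ∀ t, β t ∉ AP D I x t
  · by_cases h2 : ∀ t, β t ∉ AP D I x' t
    · rw [if_pos h1, if_pos h2, if_pos, one_mul]
      intro t
      rw [Finset.mem_union, not_or]
      exact ⟨h1 t, h2 t⟩
    · rw [if_neg h2, mul_zero, if_neg]
      intro h
      apply h2
      intro t
      have := h t
      rw [Finset.mem_union, not_or] at this
      exact this.2
  · rw [if_neg h1, zero_mul, if_neg]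
    intro h
    apply h1
    intro t
    have := h t
    rw [Finset.mem_union, not_or] at this
    exact this.1

lemma ex_pair (D : Finset ((Fin K × F) × F)) (I : Finset F) (x x' : F × F) :
    Ex (pu K F) (fun β => qx D I x β * qx D I x' β)
      = ∏ t, (1 - ((AP D I x t ∪ AP D I x' t).card : ℝ) / Fintype.card F) := by
  simp only [qx_mul]
  exact ex_avoid _

lemma πx_pos (D : Finset ((Fin K × F) × F)) (I : Finset F) (x : F × F)
    (hI : 2 * I.card ≤ Fintype.card F) : 0 < πx D I x :=
  lt_of_lt_of_le (Real.exp_pos _) (exp_le_πx D I x hI)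

/-- weight of a point in the second phase -/
noncomputable def wt (D : Finset ((Fin K × F) × F)) (I : Finset F) (x : F × F) : ℝ :=
  (1 / (2 * (Fintype.card F : ℝ))) / πx D I x

lemma wt_le (D : Finset ((Fin K × F) × F)) (I : Finset F) (x : F × F)
    (hI : 2 * I.card ≤ Fintype.card F) :
    wt D I x ≤ Real.exp (2 * (K * I.card : ℝ)) / (2 * (Fintype.card F : ℝ)) := by
  have hn : (0 : ℝ) < Fintype.card F := by exact_mod_cast Fintype.card_pos
  unfold wt
  have h1 := exp_le_πx D I x hI
  have h2 := πx_pos D I x hI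
  rw [div_div, div_le_div_iff₀ (by positivity) (by positivity)]
  have h3 : 1 ≤ Real.exp (2 * (K * I.card : ℝ)) * πx D I x := by
    calc (1 : ℝ) = Real.exp (2 * (K * I.card : ℝ)) * Real.exp (-(2 * (K * I.card : ℝ))) := by
          rw [← Real.exp_add]; simp
      _ ≤ _ := mul_le_mul_of_nonneg_left h1 (Real.exp_pos _).le
  nlinarith

lemma wt_nonneg (D : Finset ((Fin K × F) × F)) (I : Finset F) (x : F × F)
    (hI : 2 * I.card ≤ Fintype.card F) : 0 ≤ wt D I x := by
  unfold wt
  have := πx_pos D I x hI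
  positivity

/-- the error factor -/
noncomputable def Rr (K d g : ℕ) : ℝ := Real.exp (4 * (K * (d : ℝ) ^ 2) / g)

lemma one_le_Rr (K d g : ℕ) : 1 ≤ Rr K d g := by
  unfold Rr
  apply Real.one_le_exp
  positivity

/-- weight of `(a, b)` given `β` -/
noncomputable def Wt (D : Finset ((Fin K × F) × F)) (D₂ : Finset (F × F)) (I : Finset F)
    (β : Fin K × F → F) (a b : F) : ℝ :=
  if (a, b) ∉ D₂ then wt D I (a, b) * qx D I (a, b) β else 0

lemma qx_zero_one (D : Finset ((Fin K × F) × F)) (I : Finset F) (x : F × F)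
    (β : Fin K × F → F) : qx D I x β = 0 ∨ qx D I x β = 1 := by
  unfold qx; split_ifs <;> simp

lemma qL_zero_one (D : Finset ((Fin K × F) × F)) (ℓ : F × F)
    (β : Fin K × F → F) : qL D ℓ β = 0 ∨ qL D ℓ β = 1 := by
  unfold qL; split_ifs <;> simp

lemma Wt_nonneg (D : Finset ((Fin K × F) × F)) (D₂ : Finset (F × F)) (I : Finset F)
    (hI : 2 * I.card ≤ Fintype.card F) (β : Fin K × F → F) (a b : F) :
    0 ≤ Wt D D₂ I β a b := by
  unfold Wt
  split_ifs with h
  · exact le_refl _
  · apply mul_nonneg (wt_nonneg D I _ hI)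
    rcases qx_zero_one D I (a, b) β with h | h <;> rw [h] <;> norm_num

lemma Wt_le (D : Finset ((Fin K × F) × F)) (D₂ : Finset (F × F)) (I : Finset F)
    (hI : 2 * I.card ≤ Fintype.card F) (β : Fin K × F → F) (a b : F) :
    Wt D D₂ I β a b ≤ Real.exp (2 * (K * I.card : ℝ)) / (2 * (Fintype.card F : ℝ)) := by
  have h0 : (0 : ℝ) ≤ Real.exp (2 * (K * I.card : ℝ)) / (2 * (Fintype.card F : ℝ)) := by positivity
  unfold Wt
  split_ifs with h
  · exact h0
  · rcases qx_zero_one D I (a, b) β with h | h <;> rw [h]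
    · simpa using h0
    · rw [mul_one]; exact wt_le D I _ hI

/-- variance bound on a vertical line -/
lemma var_vertical (D : Finset ((Fin K × F) × F)) (D₂ : Finset (F × F)) (I : Finset F)
    (hI : 2 * I.card ≤ Fintype.card F) (a : F) :
    Ex (pu K F) (fun β => if 1 < ∑ b, Wt D D₂ I β a b then 1 else 0)
      ≤ (Rr K I.card (Fintype.card F) - 1)
        + Real.exp (2 * (K * I.card : ℝ)) / (Fintype.card F : ℝ) := by
  classical
  have hn : (0 : ℝ) < Fintype.card F := by exact_mod_cast Fintype.card_pos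
  set R := Rr K I.card (Fintype.card F) with hR
  set J : Finset F := Finset.univ.filter fun b => (a, b) ∉ D₂ with hJ
  set θ : ℝ := 1 / (2 * (Fintype.card F : ℝ)) with hθ
  set wm : ℝ := Real.exp (2 * (K * I.card : ℝ)) / (2 * (Fintype.card F : ℝ)) with hwm
  have hJc : (J.card : ℝ) ≤ Fintype.card F := by exact_mod_cast Finset.card_le_univ _
  have hθJ : θ * J.card ≤ 1 / 2 := by
    rw [hθ]
    rw [one_div_mul_eq_div, div_le_iff₀ (by positivity)]
    linarith
  have hθ0 : 0 ≤ θ := by rw [hθ]; positivity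
  have hwm0 : 0 ≤ wm := by rw [hwm]; positivity
  have hsm := second_moment (pu K F) J (fun b => qx D I (a, b)) (fun _ => 1)
    (fun b => πx D I (a, b)) (fun b => wt D I (a, b)) θ 1 R wm one_pos hθ0
    (one_le_Rr _ _ _)
    (fun b _ β => qx_zero_one D I _ β) (fun _ => Or.inr rfl) (fun _ _ _ => by simp)
    (ex_one _ pu_sum) (fun b _ => πx_pos D I _ hI) (fun b _ => ex_qx D I _)
    (fun b _ => rfl) (fun b _ => wt_le D I _ hI)
    (by
      intro b _ b' _ hbb
      rw [ex_pair]
      have := pair_vertical D I (a, b) (a, b') hI rfl (by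
        intro h; exact hbb (Prod.ext_iff.mp h).2)
      rw [div_one]
      exact this)
  simp only [mul_one, div_one] at hsm
  have hZ : ∀ β, ∑ b, Wt D D₂ I β a b = ∑ b ∈ J, wt D I (a, b) * qx D I (a, b) β := by
    intro β
    rw [hJ, Finset.sum_filter]
    rfl
  have hc := chebyshev (pu K F) pu_nonneg (fun β => ∑ b, Wt D D₂ I β a b) (fun _ => 1)
    (fun _ => Or.inr rfl) (θ * J.card) (1 / 2)
    (θ ^ 2 * (J.card : ℝ) ^ 2 * (R - 1) + θ * J.card * wm) (by norm_num)
    (by
      simp only [mul_one, hZ]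
      exact hsm)
    (fun β => 1 < ∑ b, Wt D D₂ I β a b)
    (by
      intro β hβ
      refine ⟨rfl, ?_⟩
      rw [abs_of_nonneg] <;> linarith)
  refine hc.trans ?_
  have hR1 : 0 ≤ R - 1 := by have := one_le_Rr K I.card (Fintype.card F); linarith
  have hθJ0 : 0 ≤ θ * J.card := by positivity
  have e1 : θ ^ 2 * (J.card : ℝ) ^ 2 * (R - 1) ≤ 1 / 4 * (R - 1) := by
    apply mul_le_mul_of_nonneg_right _ hR1
    nlinarith
  have e2 : θ * J.card * wm ≤ 1 / 2 * wm := mul_le_mul_of_nonneg_right hθJ hwm0
  have e3 : 2 * wm = Real.exp (2 * (K * I.card : ℝ)) / (Fintype.card F : ℝ) := by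
    rw [hwm]; field_simp
  rw [← e3]
  rw [div_le_iff₀ (by norm_num)]
  linarith

/-- variance bound on a line with slope in `I` -/
lemma var_line (D : Finset ((Fin K × F) × F)) (D₂ : Finset (F × F)) (I : Finset F)
    (hI : 2 * I.card ≤ Fintype.card F) (hF : 2 ≤ Fintype.card F) (ℓ : F × F) (hℓ : ℓ.1 ∈ I)
    (hg1 : (K : ℝ) * Fintype.card F / 2
      ≤ ((Finset.univ.filter fun t : Fin K × F => (t, lv ℓ t.2) ∉ D).card : ℝ))
    (hg2 : (Fintype.card F : ℝ) / 2
      ≤ ((Finset.univ.filter fun a : F => (a, lv ℓ a) ∉ D₂).card : ℝ)) :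
    Ex (pu K F) (fun β => if qL D ℓ β = 1 ∧ ∑ a, Wt D D₂ I β a (lv ℓ a)
        < Real.exp (K / 2 : ℝ) / 8 then 1 else 0)
      ≤ 16 * ((Rr K I.card (Fintype.card F) - 1) * Real.exp (2 * (K : ℝ))
        + Real.exp (2 * (K * I.card : ℝ)) / (Fintype.card F : ℝ)) := by
  classical
  have hn : (0 : ℝ) < Fintype.card F := by exact_mod_cast Fintype.card_pos
  set R := Rr K I.card (Fintype.card F) with hR
  set J : Finset F := Finset.univ.filter fun a => (a, lv ℓ a) ∉ D₂ with hJ
  set θ : ℝ := 1 / (2 * (Fintype.card F : ℝ)) with hθ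
  set wm : ℝ := Real.exp (2 * (K * I.card : ℝ)) / (2 * (Fintype.card F : ℝ)) with hwm
  set U := uL D ℓ with hU
  have hU0 : 0 < U := lt_of_lt_of_le (Real.exp_pos _) (exp_le_uL D ℓ hF)
  have hUi : 1 / U ≤ Real.exp (2 * (K : ℝ)) := by
    rw [div_le_iff₀ hU0]
    have := exp_le_uL D ℓ hF
    calc (1 : ℝ) = Real.exp (2 * (K : ℝ)) * Real.exp (-(2 * (K : ℝ))) := by
          rw [← Real.exp_add]; simp
      _ ≤ _ := mul_le_mul_of_nonneg_left this (Real.exp_pos _).le
  have hUle : U ≤ Real.exp (-(K / 2 : ℝ)) := uL_le_exp D ℓ hg1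
  have hJc : (J.card : ℝ) ≤ Fintype.card F := by exact_mod_cast Finset.card_le_univ _
  have hθJ : θ * J.card ≤ 1 / 2 := by
    rw [hθ]
    rw [one_div_mul_eq_div, div_le_iff₀ (by positivity)]
    linarith
  have hθJl : 1 / 4 ≤ θ * J.card := by
    rw [hθ]
    rw [one_div_mul_eq_div, le_div_iff₀ (by positivity)]
    linarith
  have hθ0 : 0 ≤ θ := by rw [hθ]; positivity
  have hwm0 : 0 ≤ wm := by rw [hwm]; positivity
  have hthr : ∀ a, thr (a, lv ℓ a) ℓ.1 = ℓ := by
    intro a
    unfold thr lv
    simp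
  have hsm := second_moment (pu K F) J (fun a => qx D I (a, lv ℓ a)) (qL D ℓ)
    (fun a => πx D I (a, lv ℓ a)) (fun a => wt D I (a, lv ℓ a)) θ U R wm hU0 hθ0
    (one_le_Rr _ _ _)
    (fun a _ β => qx_zero_one D I _ β) (fun β => qL_zero_one D ℓ β)
    (by
      intro a _ β
      rcases qx_zero_one D I (a, lv ℓ a) β with h | h
      · rw [h, zero_mul]
      · have h2 : qL D ℓ β = 1 := by
          unfold qx at h
          unfold qL
          have h3 : ∀ t, β t ∉ AP D I (a, lv ℓ a) t := by
            by_contra hc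
            rw [if_neg hc] at h
            norm_num at h
          rw [if_pos]
          intro t ht
          apply h3 t
          apply AL_subset_AP D I (a, lv ℓ a) ℓ.1 hℓ t
          rw [hthr a]; exact ht
        rw [h2, mul_one])
    (ex_qL D ℓ) (fun a _ => πx_pos D I _ hI) (fun a _ => ex_qx D I _)
    (fun a _ => rfl) (fun a _ => wt_le D I _ hI)
    (by
      intro a _ a' _ haa
      rw [ex_pair, le_div_iff₀ hU0]
      have := pair_line D I (a, lv ℓ a) (a', lv ℓ a') ℓ.1 hℓ hI (by rw [hthr, hthr]) haa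
      rw [hthr] at this
      exact this)
  have hY : ∀ β, ∑ a, Wt D D₂ I β a (lv ℓ a)
      = ∑ a ∈ J, wt D I (a, lv ℓ a) * qx D I (a, lv ℓ a) β := by
    intro β
    rw [hJ, Finset.sum_filter]
    rfl
  have hm : Real.exp (K / 2 : ℝ) / 4 ≤ θ * J.card / U := by
    rw [le_div_iff₀ hU0]
    calc Real.exp (K / 2 : ℝ) / 4 * U ≤ Real.exp (K / 2 : ℝ) / 4 * Real.exp (-(K / 2 : ℝ)) :=
          mul_le_mul_of_nonneg_left hUle (by positivity)
      _ = 1 / 4 := by
          rw [div_mul_eq_mul_div, ← Real.exp_add]; simp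
      _ ≤ _ := hθJl
  have hexp1 : 1 ≤ Real.exp (K / 2 : ℝ) := Real.one_le_exp (by positivity)
  have hc := chebyshev (pu K F) pu_nonneg (fun β => ∑ a, Wt D D₂ I β a (lv ℓ a)) (qL D ℓ)
    (qL_zero_one D ℓ) (θ * J.card / U) (1 / 8)
    (θ ^ 2 * (J.card : ℝ) ^ 2 * (R - 1) / U + θ * J.card * wm) (by norm_num)
    (by
      simp only [hY]
      exact hsm)
    (fun β => qL D ℓ β = 1 ∧ ∑ a, Wt D D₂ I β a (lv ℓ a) < Real.exp (K / 2 : ℝ) / 8)
    (by
      intro β hβ
      refine ⟨hβ.1, ?_⟩
      have h1 := hβ.2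
      rw [abs_sub_comm, abs_of_nonneg] <;> linarith)
  refine hc.trans ?_
  have hR1 : 0 ≤ R - 1 := by have := one_le_Rr K I.card (Fintype.card F); linarith
  have hθJ0 : 0 ≤ θ * J.card := by positivity
  have e1 : θ ^ 2 * (J.card : ℝ) ^ 2 * (R - 1) / U
      ≤ 1 / 4 * ((R - 1) * Real.exp (2 * (K : ℝ))) := by
    have : θ ^ 2 * (J.card : ℝ) ^ 2 ≤ 1 / 4 := by nlinarith
    calc θ ^ 2 * (J.card : ℝ) ^ 2 * (R - 1) / U
        = (θ ^ 2 * (J.card : ℝ) ^ 2) * ((R - 1) * (1 / U)) := by ring
      _ ≤ 1 / 4 * ((R - 1) * Real.exp (2 * (K : ℝ))) := by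
          apply mul_le_mul this _ (by positivity) (by norm_num)
          exact mul_le_mul_of_nonneg_left hUi hR1
  have e2 : θ * J.card * wm ≤ 1 / 2 * wm := mul_le_mul_of_nonneg_right hθJ hwm0
  have e3 : 2 * wm = Real.exp (2 * (K * I.card : ℝ)) / (Fintype.card F : ℝ) := by
    rw [hwm]; field_simp
  rw [← e3]
  rw [div_le_iff₀ (by norm_num)]
  linarith

end PhaseOne

end Pool.Agent.V1120.TC
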