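import Mathlib

/-!
Averages over product weights on a finite function space.
-/

open Finset

namespace Pool.Agent.V1120.TC

section Product

variable {X Y : Type*} [Fintype X] [DecidableEq X] [Fintype Y] [DecidableEq Y]

/-- the average of `F` for the product weights `p` on functions `X → Y` -/
noncomputable def Ex (p : X → Y → ℝ) (F : (X → Y) → ℝ) : ℝ :=
  ∑ β : X → Y, (∏ t, p t (β t)) * F β

lemma ex_add (p : X → Y → ℝ) (F G : (X → Y) → ℝ) :
    Ex p (fun β => F β + G β) = Ex p F + Ex p G := by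
  simp only [Ex, mul_add, Finset.sum_add_distrib]

lemma ex_sub (p : X → Y → ℝ) (F G : (X → Y) → ℝ) :
    Ex p (fun β => F β - G β) = Ex p F - Ex p G := by
  simp only [Ex, mul_sub, Finset.sum_sub_distrib]

lemma ex_smul (p : X → Y → ℝ) (c : ℝ) (F : (X → Y) → ℝ) :
    Ex p (fun β => c * F β) = c * Ex p F := by
  simp only [Ex, Finset.mul_sum]
  exact Finset.sum_congr rfl fun β _ => by ring

lemma ex_sum {ι : Type*} (p : X → Y → ℝ) (s : Finset ι) (F : ι → (X → Y) → ℝ) :
    Ex p (fun β => ∑ j ∈ s, F j β) = ∑ j ∈ s, Ex p (F j) := by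
  simp only [Ex, Finset.mul_sum]
  rw [Finset.sum_comm]

lemma ex_event (p : X → Y → ℝ) (B : X → Finset Y) :
    Ex p (fun β => if ∀ t, β t ∈ B t then 1 else 0) = ∏ t, ∑ y ∈ B t, p t y := by
  unfold Ex
  rw [Finset.prod_univ_sum]
  simp only [mul_ite, mul_one, mul_zero]
  rw [← Finset.sum_filter]
  apply Finset.sum_congr
  · ext β; simp
  · intros; rfl

lemma ex_one (p : X → Y → ℝ) (hs : ∀ t, ∑ y, p t y = 1) :
    Ex p (fun _ => 1) = 1 := by
  have h := ex_event p (fun _ => Finset.univ)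
  simp only [Finset.mem_univ, implies_true, if_true] at h
  rw [h]
  simp [hs]

lemma ex_const (p : X → Y → ℝ) (hs : ∀ t, ∑ y, p t y = 1) (c : ℝ) :
    Ex p (fun _ => c) = c := by
  have := ex_smul p c (fun _ => 1)
  simp only [mul_one] at this
  rw [this, ex_one p hs, mul_one]

lemma ex_mono (p : X → Y → ℝ) (hp : ∀ t y, 0 ≤ p t y) {F G : (X → Y) → ℝ}
    (h : ∀ β, F β ≤ G β) : Ex p F ≤ Ex p G := by
  apply Finset.sum_le_sum
  intro β _
  exact mul_le_mul_of_nonneg_left (h β) (Finset.prod_nonneg fun t _ => hp t _)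

lemma exists_le_of_ex_le (p : X → Y → ℝ) (hp : ∀ t y, 0 ≤ p t y)
    (hs : ∀ t, ∑ y, p t y = 1) (F : (X → Y) → ℝ) (c : ℝ) (h : Ex p F ≤ c) :
    ∃ β : X → Y, (∀ t, 0 < p t (β t)) ∧ F β ≤ c := by
  by_contra hcon
  push Not at hcon
  have h1 : Ex p (fun β => F β - c) ≤ 0 := by
    rw [ex_sub, ex_const p hs]; linarith
  have hone := ex_one p hs
  have hex : ∃ β : X → Y, 0 < ∏ t, p t (β t) := by
    by_contra hno
    push Not at hno
    have : Ex p (fun _ => 1) ≤ 0 := by
      unfold Ex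
      apply Finset.sum_nonpos
      intro β _
      simpa using hno β
    linarith
  obtain ⟨β₀, hβ₀⟩ := hex
  have hpos : ∀ β : X → Y, 0 < ∏ t, p t (β t) → ∀ t, 0 < p t (β t) := by
    intro β hβ t
    rcases (hp t (β t)).lt_or_eq with h | h
    · exact h
    · exfalso
      rw [Finset.prod_eq_zero (Finset.mem_univ t) h.symm] at hβ
      exact lt_irrefl _ hβ
  have h2 : 0 < Ex p (fun β => F β - c) := by
    unfold Ex
    apply Finset.sum_pos'
    · intro β _
      have hnn : 0 ≤ ∏ t, p t (β t) := Finset.prod_nonneg fun t _ => hp t _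
      rcases hnn.lt_or_eq with h | h
      · exact mul_nonneg hnn (by have := hcon β (hpos β h); linarith)
      · rw [← h]; simp
    · refine ⟨β₀, Finset.mem_univ _, ?_⟩
      exact mul_pos hβ₀ (by have := hcon β₀ (hpos β₀ hβ₀); linarith)
  linarith

end Product

section SecondMoment

variable {X Y : Type*} [Fintype X] [DecidableEq X] [Fintype Y] [DecidableEq Y]

/-- Second moment bound.  `q j` are `0/1` events contained in the event `ind` of probability
`U`, `π j` is the probability of `q j`, the weights are `w j = θ / π j`. -/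
lemma second_moment {ι : Type*} [DecidableEq ι] (p : X → Y → ℝ)
    (J : Finset ι) (q : ι → (X → Y) → ℝ) (ind : (X → Y) → ℝ) (π w : ι → ℝ)
    (θ U R wmax : ℝ) (hU : 0 < U) (hθ : 0 ≤ θ) (hR : 1 ≤ R)
    (hq : ∀ j ∈ J, ∀ β, q j β = 0 ∨ q j β = 1)
    (hind : ∀ β, ind β = 0 ∨ ind β = 1)
    (hqi : ∀ j ∈ J, ∀ β, q j β * ind β = q j β)
    (hEi : Ex p ind = U)
    (hπ : ∀ j ∈ J, 0 < π j) (hEq : ∀ j ∈ J, Ex p (q j) = π j)
    (hw : ∀ j ∈ J, w j = θ / π j) (hwm : ∀ j ∈ J, w j ≤ wmax)
    (hpair : ∀ j ∈ J, ∀ j' ∈ J, j ≠ j' →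
      Ex p (fun β => q j β * q j' β) ≤ π j * π j' * R / U) :
    Ex p (fun β => ((∑ j ∈ J, w j * q j β) - θ * J.card / U) ^ 2 * ind β)
      ≤ θ ^ 2 * (J.card : ℝ) ^ 2 * (R - 1) / U + θ * J.card * wmax := by
  set m : ℝ := θ * J.card / U with hm
  have hexp : Ex p (fun β => ((∑ j ∈ J, w j * q j β) - m) ^ 2 * ind β)
      = Ex p (fun β => ∑ j ∈ J, ∑ j' ∈ J, (w j * w j') * (q j β * q j' β))
        - 2 * m * Ex p (fun β => ∑ j ∈ J, w j * q j β) + m ^ 2 * U := by
    rw [← hEi, ← ex_smul, ← ex_smul, ← ex_sub, ← ex_add]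
    congr 1
    funext β
    have h1 : (∑ j ∈ J, w j * q j β) * ind β = ∑ j ∈ J, w j * q j β := by
      rw [Finset.sum_mul]
      exact Finset.sum_congr rfl fun j hj => by rw [mul_assoc, hqi j hj]
    have h2 : (∑ j ∈ J, ∑ j' ∈ J, (w j * w j') * (q j β * q j' β))
        = (∑ j ∈ J, w j * q j β) * (∑ j ∈ J, w j * q j β) := by
      rw [Finset.sum_mul_sum]
      exact Finset.sum_congr rfl fun j _ => Finset.sum_congr rfl fun j' _ => by ring
    rw [h2]
    set Yv := ∑ j ∈ J, w j * q j β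
    have h3 : Yv ^ 2 * ind β = Yv * Yv := by
      rw [sq, mul_assoc, h1]
    calc (Yv - m) ^ 2 * ind β = Yv ^ 2 * ind β - 2 * m * (Yv * ind β) + m ^ 2 * ind β := by ring
      _ = Yv * Yv - 2 * m * Yv + m ^ 2 * ind β := by rw [h3, h1]
  have hE1 : Ex p (fun β => ∑ j ∈ J, w j * q j β) = θ * J.card := by
    rw [ex_sum]
    have : ∀ j ∈ J, Ex p (fun β => w j * q j β) = θ := by
      intro j hj
      rw [ex_smul, hEq j hj, hw j hj, div_mul_cancel₀ _ (hπ j hj).ne']
    rw [Finset.sum_congr rfl this, Finset.sum_const, nsmul_eq_mul, mul_comm]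
  have hE2 : Ex p (fun β => ∑ j ∈ J, ∑ j' ∈ J, (w j * w j') * (q j β * q j' β))
      ≤ θ ^ 2 * (J.card : ℝ) ^ 2 * R / U + θ * J.card * wmax := by
    have hterm : ∀ j ∈ J, ∀ j' ∈ J, Ex p (fun β => (w j * w j') * (q j β * q j' β))
        ≤ θ ^ 2 * R / U + (if j' = j then θ * wmax else 0) := by
      intro j hj j' hj'
      have hwj : 0 ≤ w j := by rw [hw j hj]; exact div_nonneg hθ (hπ j hj).le
      have hwj' : 0 ≤ w j' := by rw [hw j' hj']; exact div_nonneg hθ (hπ j' hj').le
      rw [ex_smul]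
      by_cases hjj : j' = j
      · subst hjj
        simp only [if_true]
        have : (fun β => q j' β * q j' β) = q j' := by
          funext β
          rcases hq j' hj' β with h | h <;> simp [h]
        rw [this, hEq j' hj']
        have h1 : w j' * π j' = θ := by rw [hw j' hj', div_mul_cancel₀ _ (hπ j' hj').ne']
        have h2 : w j' * w j' * π j' = θ * w j' := by rw [← h1]; ring
        rw [h2]
        have h3 : θ * w j' ≤ θ * wmax := mul_le_mul_of_nonneg_left (hwm j' hj') hθ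
        have h4 : 0 ≤ θ ^ 2 * R / U := by positivity
        linarith
      · rw [if_neg hjj, add_zero]
        have h1 := hpair j hj j' hj' (Ne.symm hjj)
        calc w j * w j' * Ex p (fun β => q j β * q j' β)
            ≤ w j * w j' * (π j * π j' * R / U) :=
              mul_le_mul_of_nonneg_left h1 (mul_nonneg hwj hwj')
          _ = θ ^ 2 * R / U := by
              rw [hw j hj, hw j' hj']
              have := (hπ j hj).ne'
              have := (hπ j' hj').ne'
              field_simp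
    rw [ex_sum]
    have : ∀ j ∈ J, Ex p (fun β => ∑ j' ∈ J, (w j * w j') * (q j β * q j' β))
        ≤ (J.card : ℝ) * (θ ^ 2 * R / U) + θ * wmax := by
      intro j hj
      rw [ex_sum]
      calc ∑ j' ∈ J, Ex p (fun β => (w j * w j') * (q j β * q j' β))
          ≤ ∑ j' ∈ J, (θ ^ 2 * R / U + (if j' = j then θ * wmax else 0)) :=
            Finset.sum_le_sum fun j' hj' => hterm j hj j' hj'
        _ = (J.card : ℝ) * (θ ^ 2 * R / U) + θ * wmax := by
            rw [Finset.sum_add_distrib, Finset.sum_const, nsmul_eq_mul,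
              Finset.sum_ite_eq' J j, if_pos hj]
    calc ∑ j ∈ J, Ex p (fun β => ∑ j' ∈ J, (w j * w j') * (q j β * q j' β))
        ≤ ∑ j ∈ J, ((J.card : ℝ) * (θ ^ 2 * R / U) + θ * wmax) := Finset.sum_le_sum this
      _ = θ ^ 2 * (J.card : ℝ) ^ 2 * R / U + θ * J.card * wmax := by
          rw [Finset.sum_const, nsmul_eq_mul]; ring
  rw [hexp, hE1]
  have h5 : m * (θ * J.card) = θ ^ 2 * (J.card : ℝ) ^ 2 / U := by rw [hm]; ring
  have h6 : m ^ 2 * U = θ ^ 2 * (J.card : ℝ) ^ 2 / U := by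
    rw [hm]; field_simp
  have h7 : θ ^ 2 * (J.card : ℝ) ^ 2 * (R - 1) / U
      = θ ^ 2 * (J.card : ℝ) ^ 2 * R / U - θ ^ 2 * (J.card : ℝ) ^ 2 / U := by ring
  rw [h7]
  nlinarith [hE2, h5, h6]

/-- Chebyshev in the form used below. -/
lemma chebyshev (p : X → Y → ℝ) (hp : ∀ t y, 0 ≤ p t y)
    (Z : (X → Y) → ℝ) (ind : (X → Y) → ℝ) (hind : ∀ β, ind β = 0 ∨ ind β = 1)
    (m s V : ℝ) (hs : 0 < s)
    (hV : Ex p (fun β => (Z β - m) ^ 2 * ind β) ≤ V)
    (bad : (X → Y) → Prop) [DecidablePred bad]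
    (hbad : ∀ β, bad β → ind β = 1 ∧ s ≤ |Z β - m|) :
    Ex p (fun β => if bad β then 1 else 0) ≤ V / s ^ 2 := by
  rw [le_div_iff₀ (by positivity)]
  calc Ex p (fun β => if bad β then 1 else 0) * s ^ 2
      = Ex p (fun β => s ^ 2 * (if bad β then 1 else 0)) := by
        rw [ex_smul]; ring
    _ ≤ Ex p (fun β => (Z β - m) ^ 2 * ind β) := by
        apply ex_mono p hp
        intro β
        by_cases hb : bad β
        · obtain ⟨h1, h2⟩ := hbad β hb
          rw [if_pos hb, h1, mul_one, mul_one]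
          calc s ^ 2 ≤ |Z β - m| ^ 2 := by
                apply pow_le_pow_left₀ hs.le h2
            _ = (Z β - m) ^ 2 := sq_abs _
        · rw [if_neg hb, mul_zero]
          rcases hind β with h | h <;> rw [h]
          · simp
          · rw [mul_one]; positivity
    _ ≤ V := hV

end SecondMoment

end Pool.Agent.V1120.TC
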